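import Pool.Agent.Lib.MP_2c63aa_nt.MF.Defs
import Pool.Agent.Lib.MP_0370b2_nt.CS.Ore
import Pool.Agent.Lib.MP_0370b2_nt.CS.An

/-! Polynomials inside `F((1/T))`. -/

namespace Pool.Agent.MF

open Polynomial Finset Filter WithZero Pool.Agent.Carl

set_option linter.unusedSectionVars false

variable {F : Type} [Field F] [Fintype F]

theorem io_coeff (P : F[X]) (n : ℕ) : (io F P).coeff (-(n : ℤ)) = P.coeff n := by
  induction P using Polynomial.induction_on' with
  | add p q hp hq => simp [hp, hq]
  | monomial i c =>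
    rw [io, aeval_monomial, ← single_eq, coeff_monomial]
    split_ifs with h
    · rw [h, HahnSeries.coeff_single_same]
    · exact HahnSeries.coeff_single_of_ne (by omega)

theorem io_mem (P : F[X]) : io F P ∈ A F :=
  Algebra.adjoin_le (S := A F) (s := {th F}) (by simpa using th_mem)
    (Polynomial.aeval_mem_adjoin_singleton F _)

theorem io_inj : Function.Injective (io F) := fun P Q h => by
  ext n
  rw [← io_coeff, ← io_coeff, h]

theorem io_ne {P : F[X]} (h : P ≠ 0) : io F P ≠ 0 := fun e => h (io_inj (by simpa using e))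

theorem exists_io {z : LaurentSeries F} (hz : z ∈ A F) : ∃ P, io F P = z := by
  obtain ⟨N, hN⟩ := exists_v_le z
  refine ⟨∑ t ∈ range (N + 1), monomial t (z.coeff (-(t : ℤ))), ?_⟩
  rw [map_sum]
  conv_rhs => rw [A_eq_sum hz hN]
  exact sum_congr rfl fun t _ => by rw [io, aeval_monomial, ← single_eq]

theorem v_io_lt {P : F[X]} {n : ℕ} : Valued.v (io F P) < exp (n : ℤ) ↔ P.degree < n := by
  rw [degree_lt_iff_coeff_zero, show (n : ℤ) = (n - 1) + 1 by ring, exp_add,
    WithZero.lt_mul_exp_iff_le exp_ne_zero, v_le_iff]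
  constructor
  · intro h m hm
    rw [← io_coeff]
    exact h _ (by omega)
  · intro h m hm
    obtain ⟨k, rfl⟩ : ∃ k : ℕ, m = -(k : ℤ) := ⟨(-m).toNat, by omega⟩
    rw [io_coeff]
    exact h k (by omega)

theorem v_io {P : F[X]} (h : P ≠ 0) : Valued.v (io F P) = exp (P.natDegree : ℤ) := by
  obtain ⟨d, hd⟩ := exists_v_eq (io_ne h)
  have h1 : ¬ Valued.v (io F P) < exp (P.natDegree : ℤ) := by
    rw [v_io_lt, degree_eq_natDegree h]; exact lt_irrefl _
  have h2 : Valued.v (io F P) < exp ((P.natDegree + 1 : ℕ) : ℤ) := by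
    rw [v_io_lt, degree_eq_natDegree h]; exact_mod_cast Nat.lt_succ_self _
  rw [hd, exp_lt_exp] at h1 h2
  rw [hd, exp_inj]
  omega

theorem eq_zero_of_v_lt {z : LaurentSeries F} (hz : z ∈ A F) (h : Valued.v z < 1) : z = 0 := by
  by_contra h0
  exact (one_le_v hz h0).not_gt h

theorem eq_of_close {z y y' : LaurentSeries F} (hy : y ∈ A F) (hy' : y' ∈ A F)
    (h : Valued.v (z - y) < 1) (h' : Valued.v (z - y') < 1) : y = y' := by
  refine sub_eq_zero.1 (eq_zero_of_v_lt (sub_mem hy hy') ?_)
  rw [show y - y' = (z - y') - (z - y) by ring]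
  exact Valuation.map_sub_lt _ h' h

theorem v_natCast {n : ℕ} (h : (n : F) ≠ 0) : Valued.v (n : LaurentSeries F) = 1 := by
  have := v_io (F := F) (P := C (n : F)) (C_ne_zero.2 h)
  rwa [natDegree_C, map_natCast, map_natCast] at this

theorem pd : PDStmt F := by
  intro n x y hn h
  have hx : 0 < Valued.v x := lt_of_le_of_lt zero_le h
  have hy : Valued.v y = Valued.v x := by
    rw [show y = x + (y - x) by ring]
    exact Valuation.map_add_eq_of_lt_left _ h
  have key : ∀ i : ℕ, Valued.v (y ^ i - x ^ i) * Valued.v x ≤ Valued.v (y - x) * Valued.v x ^ i := by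
    intro i
    induction i with
    | zero => simp
    | succ i ih =>
      rw [show y ^ (i + 1) - x ^ (i + 1) = y * (y ^ i - x ^ i) + (y - x) * x ^ i by ring, ← map_mul,
        add_mul]
      refine Valuation.map_add_le _ ?_ (le_of_eq ?_)
      · rw [mul_assoc, map_mul, map_mul, hy, pow_succ, ← mul_assoc (Valued.v (y - x)),
          mul_comm (Valued.v (y - x) * _)]
        exact mul_le_mul_right ih _
      · rw [map_mul, map_mul, map_pow, pow_succ, mul_assoc]
  rw [← Commute.mul_geom_sum₂ (Commute.all y x), map_mul]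
  congr 1
  have e : ∑ i ∈ range n, y ^ i * x ^ (n - 1 - i) =
      n * x ^ (n - 1) + ∑ i ∈ range n, (y ^ i - x ^ i) * x ^ (n - 1 - i) := by
    rw [← nsmul_eq_mul, ← card_range n, ← sum_const, card_range, ← sum_add_distrib]
    refine sum_congr rfl fun i hi => ?_
    have : n - 1 = i + (n - 1 - i) := by have := mem_range.1 hi; omega
    conv_rhs => rw [this, pow_add, ← this]
    ring
  have e1 : Valued.v ((n : LaurentSeries F) * x ^ (n - 1)) = Valued.v x ^ (n - 1) := by
    rw [map_mul, v_natCast hn, one_mul, map_pow]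
  rw [e, Valuation.map_add_eq_of_lt_left, e1]
  rw [e1]
  refine Valuation.map_sum_lt _ (pow_pos hx _).ne' fun i hi => ?_
  have : n - 1 = i + (n - 1 - i) := by have := mem_range.1 hi; omega
  conv_rhs => rw [this, pow_add]
  rw [map_mul, map_pow]
  refine mul_lt_mul_of_pos_right ?_ (pow_pos hx _)
  refine lt_of_mul_lt_mul_right ((key i).trans_lt ?_) hx.le
  rw [mul_comm]
  exact mul_lt_mul_of_pos_left h (pow_pos hx _)

end Pool.Agent.MF
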