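import Mathlib

/-! Mills elements in `F((1/T))`. -/

namespace Pool.Agent.MillsF

open Polynomial

/-- `T = 1 / X` in `F((X)) = F((1/T))`; the valuation `Valued.v` is then `exp (deg)`. -/
noncomputable def T (F : Type) [Field F] : LaurentSeries F := HahnSeries.single (-1) 1

variable {F : Type} [Field F]

/-- The polynomial `P` is the integral part of `z`, that is `|z - P(T)| < 1`. -/
def IsFloor (z : LaurentSeries F) (P : F[X]) : Prop := Valued.v (z - aeval (T F) P) < 1

/-- For every `k` the integral part of `α ^ c ^ k` is irreducible and the leading coefficient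
(sign) of the fractional part lies in `S`. -/
def IsMills (c : ℕ) (S : Set F) (α : LaurentSeries F) : Prop :=
  ∀ k : ℕ, ∃ P : F[X], IsFloor (α ^ c ^ k) P ∧ Irreducible P ∧
    (α ^ c ^ k - aeval (T F) P).leadingCoeff ∈ S

/-- `α` is a Mills element, and at every level `k` its fractional part is at most as large as
that of any Mills element with the same integral part at that level. -/
def IsLeastMills (c : ℕ) (S : Set F) (α : LaurentSeries F) : Prop :=
  IsMills c S α ∧ ∀ β : LaurentSeries F, IsMills c S β → ∀ (k : ℕ) (P : F[X]),
    IsFloor (α ^ c ^ k) P → IsFloor (β ^ c ^ k) P →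
      Valued.v (α ^ c ^ k - aeval (T F) P) ≤ Valued.v (β ^ c ^ k - aeval (T F) P)

end Pool.Agent.MillsF
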