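import Pool.Agent.Lib.MP_2c63aa_nt.MF.Ex
import Pool.Agent.Lib.MP_2c63aa_nt.MF.Model
import Pool.Agent.Lib.MP_2c63aa_nt.FW.Short

/-! Chains of irreducible polynomials and least Mills elements. -/

namespace Pool.Agent.MF

open Polynomial Finset Filter WithZero Pool.Agent.Carl Pool.Agent.MillsF

set_option linter.unusedSectionVars false

variable {F : Type} [Field F] [Fintype F]

/-- `Q` may follow `P` in a Mills chain -/
def Adm (c : ℕ) (S : Set F) (P Q : F[X]) : Prop :=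
  Irreducible Q ∧ (∃ s ∈ S, (Q - P ^ c).leadingCoeff = c * P.leadingCoeff ^ (c - 1) * s) ∧
    (Q - P ^ c).degree < ((c - 1) * P.natDegree : ℕ)

theorem isFloor_iff {z : LaurentSeries F} {P : F[X]} :
    IsFloor z P ↔ Valued.v (z - io F P) < 1 := Iff.rfl

theorem floor_unique {z : LaurentSeries F} {P Q : F[X]} (h : IsFloor z P) (h' : IsFloor z Q) :
    P = Q := io_inj (eq_of_close (io_mem P) (io_mem Q) h h')

theorem irr_ne_pow {c : ℕ} {P Q : F[X]} (hc : 2 ≤ c) (hP : 0 < P.natDegree) (hQ : Irreducible Q) :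
    Q ≠ P ^ c := by
  rintro rfl
  exact not_irreducible_pow (by omega) hQ

theorem Adm.natDegree {c : ℕ} {S : Set F} {P Q : F[X]} (h : Adm c S P Q) :
    Q.natDegree = c * P.natDegree := by
  rw [← natDegree_pow, ← add_sub_cancel (P ^ c) Q]
  refine natDegree_add_eq_left_of_degree_lt (h.2.2.trans_le ?_)
  rcases eq_or_ne (P ^ c) 0 with h0 | h0
  · obtain rfl := pow_eq_zero_iff'.1 h0 |>.1
    have := h.2.2
    rw [h0, sub_zero, natDegree_zero, mul_zero] at this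
    exact absurd this (not_lt.2 (degree_pos_of_irreducible h.1).le)
  · rw [degree_eq_natDegree h0, natDegree_pow]
    exact_mod_cast Nat.mul_le_mul_right _ (Nat.sub_le _ _)

theorem adm_of_floor {c : ℕ} {S : Set F} {z : LaurentSeries F} {P Q : F[X]} (hc : 2 ≤ c)
    (hF : (c : F) ≠ 0) (hP : 0 < P.natDegree) (h1 : IsFloor z P) (h2 : IsFloor (z ^ c) Q)
    (hQ : Irreducible Q) (hs : (z - io F P).leadingCoeff ∈ S) : Adm c S P Q := by
  obtain ⟨e1, e2⟩ := link hF hP h1 h2 (irr_ne_pow hc hP hQ)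
  refine ⟨hQ, ⟨_, hs, e2⟩, v_io_lt.1 ?_⟩
  rw [e1, v_io (ne_zero_of_natDegree_gt hP), ← exp_nsmul, nsmul_eq_mul, ← Nat.cast_mul]
  exact mul_lt_of_lt_one_left (zero_lt_iff.2 exp_ne_zero) h1

theorem mills_of_chain {c : ℕ} {S : Set F} {P : ℕ → F[X]} (hc : 2 ≤ c) (hF : (c : F) ≠ 0)
    (h0 : Irreducible (P 0)) (h : ∀ k, Adm c S (P k) (P (k + 1))) :
    ∃ α, IsMills c S α ∧ ∀ k, IsFloor (α ^ c ^ k) (P k) := by
  have hi : ∀ k, Irreducible (P k) := fun k => by
    cases k with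
    | zero => exact h0
    | succ k => exact (h k).1
  have hp : ∀ k, 0 < (P k).natDegree := fun k => (hi k).natDegree_pos
  obtain ⟨α, hα⟩ := exists_limit hc hF hp fun k => (h k).2.2
  refine ⟨α, fun k => ⟨P k, hα k, hi k, ?_⟩, hα⟩
  obtain ⟨s, hs, e⟩ := (h k).2.1
  have := (link hF (hp k) (hα k) (by rw [← pow_mul, ← pow_succ]; exact hα (k + 1))
    (irr_ne_pow hc (hp k) (hi (k + 1)))).2
  rw [e] at this
  exact mul_left_cancel₀ (mul_ne_zero hF (pow_ne_zero _ (leadingCoeff_ne_zero.2 (hi k).ne_zero)))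
    this ▸ hs

theorem exists_adm {c m : ℕ} {S : Set F} {σ : F} {P : F[X]} (hF : (c : F) ≠ 0) (hσ : σ ∈ S)
    (σ0 : σ ≠ 0) (hP : P ≠ 0) (hm : P.natDegree < m)
    (hb : (m + 1) ^ 2 * 2 ^ (2 * m) < 2 ^ (c * P.natDegree)) :
    ∃ Q, Adm c S P Q ∧ (Q - P ^ c).degree = (c * P.natDegree - m : ℕ) := by
  have h1 : 2 * m < c * P.natDegree := (Nat.pow_lt_pow_iff_right (a := 2) (by omega)).1
    ((Nat.le_mul_of_pos_left _ (by positivity)).trans_lt hb)
  set τ := c * P.leadingCoeff ^ (c - 1) * σ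
  have τ0 : τ ≠ 0 := mul_ne_zero (mul_ne_zero hF (pow_ne_zero _ (leadingCoeff_ne_zero.2 hP))) σ0
  set d := c * P.natDegree - m
  have e : (P ^ c + C τ * X ^ d).natDegree = c * P.natDegree := by
    rw [natDegree_add_eq_left_of_natDegree_lt, natDegree_pow]
    rw [natDegree_C_mul_X_pow _ _ τ0, natDegree_pow]
    omega
  obtain ⟨g, g1, g2⟩ := FW.short_two m (P ^ c + C τ * X ^ d) (by omega) (by rwa [e])
  rw [e, ← degree_C_mul_X_pow d τ0] at g2
  have e2 : g - P ^ c = C τ * X ^ d + (g - (P ^ c + C τ * X ^ d)) := by ring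
  have e3 : (g - P ^ c).degree = d := by
    rw [e2, degree_add_eq_left_of_degree_lt g2, degree_C_mul_X_pow d τ0]
  refine ⟨g, ⟨g1, ⟨σ, hσ, ?_⟩, ?_⟩, e3⟩
  · rw [e2, leadingCoeff_add_of_degree_lt' g2, leadingCoeff_C_mul_X_pow]
  · rw [e3, Nat.cast_lt, Nat.sub_one_mul]
    omega

theorem nine_bound {n : ℕ} (h : 9 ≤ n) : (n + 1 + 1) ^ 2 * 4 < 2 ^ n := by
  induction n, h using Nat.le_induction with
  | base => norm_num
  | succ n h ih => rw [pow_succ 2 n]; nlinarith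

theorem exists_next {c : ℕ} {S : Set F} {σ : F} (hc : 3 ≤ c) (hF : (c : F) ≠ 0) (hσ : σ ∈ S)
    (σ0 : σ ≠ 0) : ∃ nx : F[X] → F[X], ∀ P, 9 ≤ P.natDegree → Adm c S P (nx P) ∧
      ∀ Q, Adm c S P Q → (nx P - P ^ c).degree ≤ (Q - P ^ c).degree := by
  have : ∀ P : F[X], ∃ R, 9 ≤ P.natDegree → Adm c S P R ∧
      ∀ Q, Adm c S P Q → (R - P ^ c).degree ≤ (Q - P ^ c).degree := fun P => by
    by_cases h : 9 ≤ P.natDegree
    · obtain ⟨Q, hQ, -⟩ := exists_adm (m := P.natDegree + 1) hF hσ σ0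
        (ne_zero_of_natDegree_gt (p := P) (n := 0) (by omega)) (by omega) (by
          refine lt_of_lt_of_le ?_ (Nat.pow_le_pow_right (by omega) (Nat.mul_le_mul_right _ hc))
          rw [show 3 * P.natDegree = P.natDegree + 2 * P.natDegree by ring, pow_add 2 P.natDegree,
            mul_add 2, pow_add 2, mul_comm (2 ^ (2 * P.natDegree)), ← mul_assoc]
          exact Nat.mul_lt_mul_of_pos_right (nine_bound h) (Nat.two_pow_pos _))
      obtain ⟨R, hR, hm⟩ := (InvImage.wf (fun R : F[X] => (R - P ^ c).degree)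
        (wellFounded_lt (α := WithBot ℕ))).has_min {R | Adm c S P R} ⟨Q, hQ⟩
      exact ⟨R, fun _ => ⟨hR, fun Q hQ => not_lt.1 (hm Q hQ)⟩⟩
    · exact ⟨0, fun h' => absurd h' h⟩
  exact ⟨fun P => (this P).choose, fun P => (this P).choose_spec⟩

theorem iter_deg {c : ℕ} {S : Set F} {nx : F[X] → F[X]} (hc : 3 ≤ c)
    (h : ∀ P, 9 ≤ P.natDegree → Adm c S P (nx P)) {P : F[X]} (hP : 9 ≤ P.natDegree) (k : ℕ) :
    9 ≤ (nx^[k] P).natDegree := by
  induction k with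
  | zero => exact hP
  | succ k ih =>
    rw [Function.iterate_succ_apply', (h _ ih).natDegree]
    nlinarith

theorem v_io_le {P Q : F[X]} (h : P.degree ≤ Q.degree) : Valued.v (io F P) ≤ Valued.v (io F Q) := by
  rcases eq_or_ne P 0 with rfl | hP
  · simp
  · rw [v_io hP, v_io (ne_zero_of_degree_ge_degree h hP), exp_le_exp]
    exact_mod_cast natDegree_le_natDegree h

theorem exists_least {c : ℕ} {S : Set F} {σ : F} (hc : 3 ≤ c) (hF : (c : F) ≠ 0) (hσ : σ ∈ S)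
    (σ0 : σ ≠ 0) {P : F[X]} (hP : Irreducible P) (h9 : 9 ≤ P.natDegree) :
    ∃ α, IsLeastMills c S α ∧ IsFloor α P := by
  obtain ⟨nx, hnx⟩ := exists_next hc hF hσ σ0
  have hd := iter_deg hc (fun P h => (hnx P h).1) h9
  obtain ⟨α, h1, h2⟩ := mills_of_chain (c := c) (S := S) (P := fun k => nx^[k] P) (by omega) hF hP
    fun k => by simpa only [Function.iterate_succ_apply'] using (hnx _ (hd k)).1
  refine ⟨α, ⟨h1, fun β hβ k R r1 r2 => ?_⟩, by simpa using h2 0⟩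
  obtain rfl := floor_unique r1 (h2 k)
  obtain ⟨R, r3, -, r4⟩ := hβ k
  obtain rfl := floor_unique r2 r3
  obtain ⟨Q, q1, q2, -⟩ := hβ (k + 1)
  rw [pow_succ, pow_mul] at q1
  have hp : 0 < (nx^[k] P).natDegree := by have := hd k; omega
  have h3 := h2 (k + 1)
  simp only [Function.iterate_succ_apply', pow_succ, pow_mul] at h3
  have h4 := v_io_le ((hnx _ (hd k)).2 Q (adm_of_floor (by omega) hF hp r2 q1 q2 r4))
  rw [(link hF hp r1 h3 (irr_ne_pow (by omega) hp (hnx _ (hd k)).1.1)).1,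
    (link hF hp r2 q1 (irr_ne_pow (by omega) hp q2)).1] at h4
  exact le_of_mul_le_mul_right h4 (pow_pos (zero_lt_one.trans (one_lt_v hp)) _)

theorem least_le {c k : ℕ} {S : Set F} {σ : F} {α : LaurentSeries F} {P : ℕ → F[X]} {Q : F[X]}
    (hc : 3 ≤ c) (hF : (c : F) ≠ 0) (hσ : σ ∈ S) (σ0 : σ ≠ 0) (h : IsLeastMills c S α)
    (hP : ∀ k, IsFloor (α ^ c ^ k) (P k) ∧ Irreducible (P k) ∧
      (α ^ c ^ k - io F (P k)).leadingCoeff ∈ S) (h9 : 9 ≤ (P k).natDegree)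
    (hQ : Adm c S (P k) Q) :
    Valued.v (α ^ c ^ k - io F (P k)) * Valued.v (io F (P k)) ^ (c - 1) ≤
      Valued.v (io F (Q - P k ^ c)) := by
  obtain ⟨nx, hnx⟩ := exists_next hc hF hσ σ0
  have hd := iter_deg hc (fun P h => (hnx P h).1) (P := Q) (by rw [hQ.natDegree]; nlinarith)
  obtain ⟨β, h1, h2⟩ := mills_of_chain (c := c) (S := S)
    (P := fun i => if i ≤ k then P i else nx^[i - (k + 1)] Q) (by omega) hF
    (by simpa using (hP 0).2.1) fun i => by
      rcases lt_trichotomy i k with hi | rfl | hi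
      · rw [if_pos hi.le, if_pos (Nat.succ_le_of_lt hi)]
        exact adm_of_floor (by omega) hF (hP i).2.1.natDegree_pos (hP i).1
          (by rw [← pow_mul, ← pow_succ]; exact (hP _).1) (hP _).2.1 (hP i).2.2
      · simpa using hQ
      · rw [if_neg hi.not_ge, if_neg (by omega), show i + 1 - (k + 1) = i - (k + 1) + 1 by omega,
          Function.iterate_succ_apply']
        exact (hnx _ (hd _)).1
  have h3 := h2 k
  have h4 := h2 (k + 1)
  simp only [le_refl, if_true] at h3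
  simp only [Nat.add_one_le_iff, lt_irrefl, if_false, Nat.sub_self, Function.iterate_zero, id,
    pow_succ, pow_mul] at h4
  rw [(link hF (by omega) h3 h4 (irr_ne_pow (by omega) (by omega) hQ.1)).1]
  exact mul_le_mul_left (h.2 β h1 k _ (hP k).1 h3) _

theorem ev_bound (K : ℕ) : ∀ᶠ t in atTop, K * (t + 1) ^ 2 < 2 ^ t := by
  filter_upwards [eventually_ge_atTop (27 * K + 3)] with t ht
  obtain ⟨u, hu, hu'⟩ : ∃ u, 3 * u ≤ t ∧ t + 1 ≤ 3 * (u + 1) := ⟨t / 3, by omega, by omega⟩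
  have h1 : u + 1 ≤ 2 ^ u := Nat.lt_two_pow_self
  calc K * (t + 1) ^ 2 ≤ K * (3 * (u + 1)) ^ 2 := by gcongr
    _ = 9 * K * (u + 1) ^ 2 := by ring
    _ < (u + 1) * (u + 1) ^ 2 := Nat.mul_lt_mul_of_pos_right (by omega) (by positivity)
    _ = (u + 1) ^ 3 := by ring
    _ ≤ (2 ^ u) ^ 3 := by gcongr
    _ ≤ 2 ^ t := by rw [← pow_mul]; exact Nat.pow_le_pow_right (by omega) (by omega)

theorem floor_deg {c k e : ℕ} {α : LaurentSeries F} {P : F[X]} (he : Valued.v α = exp (e : ℤ))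
    (h : IsFloor (α ^ c ^ k) P) (hP : Irreducible P) : P.natDegree = e * c ^ k := by
  have := v_eq_of_floor hP.natDegree_pos h
  rw [CarlAn.v_pow_eq he, v_io hP.ne_zero, exp_inj, mul_comm] at this
  exact_mod_cast this.symm

/-- the fractional parts of a least Mills element reach the square root barrier -/
theorem least_gap {c e B : ℕ} {S : Set F} {σ : F} {α : LaurentSeries F} (hc : 3 ≤ c)
    (hF : (c : F) ≠ 0) (hσ : σ ∈ S) (σ0 : σ ≠ 0) (h : IsLeastMills c S α) (e0 : 0 < e)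
    (he : Valued.v α = exp (e : ℤ)) (hB : 2 ≤ B) :
    ∀ᶠ k in atTop, ∃ y ∈ A F, ∃ g : ℤ, Valued.v (α ^ c ^ k - y) ≤ exp g ∧
      (2 * B : ℕ) * g + ((c - 2) * B - 1 : ℕ) * e * c ^ k ≤ 0 := by
  choose P hP using h.1
  have ht : Tendsto (fun k => e * c ^ k) atTop atTop :=
    (tendsto_pow_atTop_atTop_of_one_lt (by omega)).const_mul_atTop' e0
  filter_upwards [((Nat.tendsto_div_const_atTop (n := B) (by omega)).comp ht).eventually
    (ev_bound (4 * (c * B + 2) ^ 2)), ht.eventually_ge_atTop 9] with k h1 h9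
  have hn := floor_deg he (hP k).1 (hP k).2.1
  simp only [Function.comp, ← hn] at h1 h9
  set n := (P k).natDegree
  set t := n / B
  have t1 : B * t ≤ n := Nat.mul_div_le _ _
  have t2 : n < B * (t + 1) := Nat.lt_mul_div_succ _ (by omega)
  have t3 : 2 * t ≤ n := (Nat.mul_le_mul_right _ hB).trans t1
  have t4 : 3 * n ≤ c * n := Nat.mul_le_mul_right _ hc
  obtain ⟨m, m1, m2⟩ : ∃ m, c * n ≤ 2 * m + t ∧ 2 * m + t ≤ c * n + 2 :=
    ⟨(c * n - t) / 2 + 1, by omega, by omega⟩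
  have m3 : m + 1 ≤ (c * B + 2) * (t + 1) := by
    have : c * n ≤ c * (B * (t + 1)) := Nat.mul_le_mul_left _ t2.le
    nlinarith
  have hb : (m + 1) ^ 2 * 2 ^ (2 * m) < 2 ^ (c * n) := by
    refine Nat.lt_of_mul_lt_mul_left (a := 4) ?_
    calc 4 * ((m + 1) ^ 2 * 2 ^ (2 * m)) ≤ 4 * (((c * B + 2) * (t + 1)) ^ 2 * 2 ^ (2 * m)) := by
          gcongr
      _ = 4 * (c * B + 2) ^ 2 * (t + 1) ^ 2 * 2 ^ (2 * m) := by ring
      _ < 2 ^ t * 2 ^ (2 * m) := Nat.mul_lt_mul_of_pos_right h1 (by positivity)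
      _ ≤ 2 ^ (c * n + 2) := by
          rw [← pow_add]; exact Nat.pow_le_pow_right (by omega) (by omega)
      _ = _ := by ring
  obtain ⟨Q, q1, q2⟩ := exists_adm (m := m) hF hσ σ0 (hP k).2.1.ne_zero (by omega) hb
  have h2 := least_le hc hF hσ σ0 h hP h9 q1
  have h3 : m ≤ c * (P k).natDegree := show m ≤ c * n by omega
  rw [v_io (hP k).2.1.ne_zero, v_io (fun e => by simp [e] at q2),
    natDegree_eq_of_degree_eq_some q2, ← exp_nsmul, ← le_div_iff₀ (zero_lt_iff.2 exp_ne_zero),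
    ← exp_sub, nsmul_eq_mul] at h2
  refine ⟨_, io_mem (P k), _, h2, ?_⟩
  have h4 : 1 ≤ (c - 2) * B := Nat.mul_pos (by omega) (by omega)
  have h5 : (e : ℤ) * c ^ k = n := by exact_mod_cast hn.symm
  rw [mul_assoc _ (e : ℤ), h5]
  zify at t1 m1
  push_cast [h3, h4, show 1 ≤ c by omega, show 2 ≤ c by omega]
  nlinarith [mul_le_mul_of_nonneg_left m1 (Int.natCast_nonneg B)]

end Pool.Agent.MF
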