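import Pool.Agent.Lib.MP_2c63aa_nt.MF.St

/-! Leading digits of powers and the descent along the digits. -/

namespace Pool.Agent.MF

open Polynomial Finset Filter WithZero Pool.Agent.Carl Topology

theorem irr_log {p C Q : ℕ} (hp : p.Prime) (hC : 2 ≤ C) (hQ : 2 ≤ Q) (h1 : ¬ p ∣ C) (h2 : p ∣ Q) :
    Irrational (Real.log C / Real.log Q) := by
  have a1 : 0 < Real.log C := Real.log_pos (by exact_mod_cast hC)
  have a2 : 0 < Real.log Q := Real.log_pos (by exact_mod_cast hQ)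
  rintro ⟨r, hr⟩
  have r0 : 0 < r := by
    have : (0 : ℝ) < r := hr ▸ div_pos a1 a2
    exact_mod_cast this
  obtain ⟨n, hn⟩ := Int.eq_ofNat_of_zero_le (Rat.num_pos.2 r0).le
  have n0 : n ≠ 0 := by have := Rat.num_pos.2 r0; omega
  have e : (r.den : ℝ) * Real.log C = n * Real.log Q := by
    rw [Rat.cast_def, hn, div_eq_div_iff (by exact_mod_cast r.den_nz) a2.ne'] at hr
    push_cast at hr
    linarith
  rw [← Real.log_pow, ← Real.log_pow] at e
  have e2 := Real.log_injOn_pos (by simp; positivity) (by simp; positivity) e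
  have e3 : C ^ r.den = Q ^ n := by exact_mod_cast e2
  exact h1 (hp.dvd_of_dvd_pow (e3 ▸ dvd_pow h2 n0))

theorem exists_window {a L x y : ℝ} (hL : 0 < L) (h : Irrational (a / L)) (hxy : x < y) :
    ∃ᶠ j : ℕ in atTop, ∃ t : ℤ, x < j * a - t * L ∧ j * a - t * L < y := by
  have : Fact (0 < L) := ⟨hL⟩
  have h1 := (AddCircle.denseRange_zsmul_coe_iff (a := a) (p := L)).2 h
  have h2 := ((mapClusterPt_atTop_nsmul_tfae (((x + y) / 2 : ℝ) : AddCircle L)
    (a : AddCircle L)).out 3 0).1 (h1 _)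
  have h3 : ((↑) : ℝ → AddCircle L) '' Set.Ioo x y ∈ 𝓝 (((x + y) / 2 : ℝ) : AddCircle L) :=
    QuotientAddGroup.isOpenMap_coe.image_mem_nhds (Ioo_mem_nhds (by linarith) (by linarith))
  refine (mapClusterPt_iff_frequently.1 h2 _ h3).mono ?_
  rintro j ⟨z, hz, e⟩
  rw [← AddCircle.coe_nsmul, ← sub_eq_zero, ← AddCircle.coe_sub, AddCircle.coe_eq_zero_iff] at e
  obtain ⟨t, ht⟩ := e
  rw [zsmul_eq_mul, nsmul_eq_mul] at ht
  refine ⟨-t, ?_, ?_⟩ <;> push_cast <;> linarith [hz.1, hz.2]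

theorem dig : DigStmt := by
  intro p c E N hp hc hpc hE hN hNc s k₀ hs
  set M := Nat.totient N
  have hM : 0 < M := Nat.totient_pos.2 hN
  have hC : 2 ≤ c ^ M := Nat.one_lt_pow hM.ne' hc
  have hQ : 2 ≤ p ^ E := Nat.one_lt_pow hE.ne' hp.one_lt
  have a2 : 0 < Real.log (p ^ E : ℕ) := Real.log_pos (by exact_mod_cast hQ)
  have a1 : 0 < Real.log (c ^ M : ℕ) := Real.log_pos (by exact_mod_cast hC)
  have hNs : (0 : ℝ) < (N * s : ℕ) := by positivity
  have hw := exists_window a2 (irr_log hp hC hQ (fun h => hpc (hp.dvd_of_dvd_pow h))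
    (dvd_pow_self p hE.ne')) (x := Real.log (N * s : ℕ)) (y := Real.log (N * (s + 1) : ℕ))
    (Real.log_lt_log hNs (by exact_mod_cast Nat.mul_lt_mul_of_pos_left s.lt_succ_self hN))
  have hb : ∀ᶠ j : ℕ in atTop, Real.log (N * (s + 1) : ℕ) ≤ j * Real.log (c ^ M : ℕ) :=
    (tendsto_natCast_atTop_atTop.atTop_mul_const a1).eventually_ge_atTop _
  obtain ⟨j, ⟨t, h1, h2⟩, h3, h4⟩ := (hw.and_eventually (hb.and (eventually_ge_atTop k₀))).exists
  obtain ⟨t, rfl⟩ := Int.eq_ofNat_of_zero_le (a := t) (by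
    have : (0 : ℝ) < t * Real.log (p ^ E : ℕ) := by linarith
    exact_mod_cast ((mul_pos_iff_of_pos_right a2).1 this).le)
  have hQ0 : (0 : ℝ) < ((p ^ E : ℕ) : ℝ) ^ t := by positivity
  have hC0 : (0 : ℝ) < ((c ^ M : ℕ) : ℝ) ^ j := by positivity
  rw [Int.cast_natCast, ← Real.log_pow, ← Real.log_pow] at h1 h2
  rw [lt_sub_iff_add_lt, ← Real.log_mul hNs.ne' hQ0.ne',
    Real.log_lt_log_iff (by positivity) hC0] at h1
  rw [sub_lt_iff_lt_add, ← Real.log_mul (by positivity) hQ0.ne',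
    Real.log_lt_log_iff hC0 (by positivity)] at h2
  have h5 : N * s * (p ^ E) ^ t < (c ^ M) ^ j := by exact_mod_cast h1
  have h6 : (c ^ M) ^ j < N * (s + 1) * (p ^ E) ^ t := by exact_mod_cast h2
  have h7 : (c ^ M) ^ j ≡ 1 [MOD N] := by simpa using (Nat.ModEq.pow_totient hNc.symm).pow j
  obtain ⟨u, hu⟩ := (Nat.modEq_iff_dvd' (by omega)).1 h7.symm
  refine ⟨M * j, u, t, h4.trans (Nat.le_mul_of_pos_left j hM), by rw [pow_mul]; omega, ?_⟩
  rw [Nat.div_eq_iff (by positivity)]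
  have h8 : N * (s * (p ^ E) ^ t) ≤ N * u := by rw [← mul_assoc]; omega
  have h9 : N * u < N * ((s + 1) * (p ^ E) ^ t) := by rw [← mul_assoc]; omega
  have := Nat.le_of_mul_le_mul_left h8 hN
  have := Nat.lt_of_mul_lt_mul_left h9
  rw [add_mul, one_mul] at this
  omega

variable {F : Type} [Field F] [Fintype F]

theorem good : GoodStmt F := by
  intro β c N a b hβ hc hcF hN hNc hNq hb β0 h
  classical
  obtain ⟨p, hp, n, hpp, hq⟩ := FiniteField.card' F
  set E := Nat.totient N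
  have hE : 0 < E := Nat.totient_pos.2 hN
  have hQ0 := q_pos (F := F) E
  obtain ⟨z, hz⟩ := (Nat.modEq_iff_dvd' hQ0).1 (Nat.ModEq.pow_totient hNq.symm).symm
  set Q := Fintype.card F ^ E with hQ
  set γ := β ^ N with hγ
  have γ0 : γ ≠ 0 := pow_ne_zero _ β0
  obtain ⟨V, V1, V2, V3⟩ := aut (fld F γ) E ((range Q).image fun d => γ ^ d / γ ^ z)
    (fld_fin (hβ.pow N)) hE (fun x hx => by
      obtain ⟨d, -, rfl⟩ := mem_image.1 hx
      exact div_mem (pow_mem (self_mem γ) _) (pow_mem (self_mem γ) _))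
  have key : ∀ (g : ℤ) (t u : ℕ) (x : LaurentSeries F), x ∈ V → x ≠ 0 → ∀ y ∈ A F,
      Valued.v (x * β * γ ^ u - y) ≤ exp ((Q ^ t : ℕ) * g) →
      ∃ x ∈ V.erase 0, ∃ y ∈ A F, Valued.v (x * β * γ ^ (u / Q ^ t) - y) ≤ exp g := by
    intro g t
    induction t with
    | zero => exact fun u x h1 h2 y h3 h4 => ⟨x, mem_erase.2 ⟨h2, h1⟩, y, h3, by simpa using h4⟩
    | succ t ih =>
      intro u x h1 h2 y h3 h4
      obtain ⟨r, hr, hne⟩ := exists_U_ne E (z := γ ^ (u % Q) / γ ^ z * x)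
        (mul_ne_zero (div_ne_zero (pow_ne_zero _ γ0) (pow_ne_zero _ γ0)) h2)
      have e : x * β * γ ^ u = (β * γ ^ (u / Q)) ^ Q * (γ ^ (u % Q) / γ ^ z * x) := by
        have e1 : β ^ Q = β * γ ^ z := by
          rw [hγ, ← pow_mul, ← hz, ← pow_succ', Nat.sub_add_cancel hQ0]
        conv_lhs => rw [← Nat.div_add_mod u Q, pow_add, mul_comm Q, pow_mul]
        rw [mul_pow, e1]
        field_simp
      rw [pow_succ', ← Nat.div_div_eq_div_mul]
      refine ih (u / Q) _ (V3 _ (mem_image.2 ⟨_, mem_range.2 (Nat.mod_lt _ hQ0), rfl⟩) x h1 r hr)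
        hne _ (U_mem hr h3) ?_
      rw [mul_assoc, mul_comm, ← U_semi hr, ← hQ, ← e, ← map_sub]
      refine U_val _ (h4.trans (le_of_eq ?_))
      rw [← hQ, pow_succ']
      push_cast
      rw [mul_assoc]
  refine ⟨V.erase 0, fun x hx => ⟨V2 x (mem_erase.1 hx).2, (mem_erase.1 hx).1⟩, fun s hs => ?_⟩
  obtain ⟨k₀, hk⟩ := eventually_atTop.1 h
  obtain ⟨k, u, t, h1, h2, h3⟩ := dig p c (n * E) N hpp hc
    (fun e => hcF ((CharP.cast_eq_zero_iff F p c).2 e)) (Nat.mul_pos n.pos hE) hN hNc s k₀ hs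
  rw [pow_mul, ← hq, ← hQ] at h3
  obtain ⟨y, y1, g, y2, y3⟩ := hk k h1
  rw [← h3]
  refine key _ t u 1 V1 one_ne_zero y y1 ?_
  rw [one_mul, hγ, ← pow_mul, ← pow_succ', add_comm, ← h2]
  refine y2.trans (exp_le_exp.2 ?_)
  have h4 : b * (a * N * (u / Q ^ t) / b) * Q ^ t ≤ a * c ^ k := by
    rw [h2]
    calc _ ≤ a * N * (u / Q ^ t) * Q ^ t := Nat.mul_le_mul_right _ (Nat.mul_div_le _ _)
      _ = a * (N * (u / Q ^ t * Q ^ t)) := by ring
      _ ≤ _ := Nat.mul_le_mul_left _ ((Nat.mul_le_mul_left _ (Nat.div_mul_le_self _ _)).trans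
        (Nat.le_add_left _ _))
  have h5 : (0 : ℤ) < b := by exact_mod_cast hb
  refine le_of_mul_le_mul_left ?_ h5
  have h6 : (b : ℤ) * (a * N * (u / Q ^ t) / b : ℕ) * (Q ^ t : ℕ) ≤ a * c ^ k := by exact_mod_cast h4
  linarith

end Pool.Agent.MF
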