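import Pool.Agent.Lib.MP_2c63aa_nt.MF.NP
import Pool.Agent.Lib.MP_2c63aa_nt.MF.Dig

/-! Powers along `c ^ k` that are close to polynomials come from PV elements. -/

namespace Pool.Agent.MF

open Polynomial Finset Filter WithZero Pool.Agent.Carl Module

set_option linter.unusedSectionVars false

variable {F : Type} [Field F] [Fintype F]

theorem eval_ne {γ : LaurentSeries F} (hγ : IsAlgebraic (kk F) γ)
    (hst : ∀ D, 0 < D → fld F (γ ^ D) = fld F γ) : (minpolyDiv (kk F) γ).eval γ ≠ 0 := by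
  obtain ⟨p, hp, n, hpp, -⟩ := FiniteField.card' F
  have : CharP (kk F) p := charP_of_injective_algebraMap (algebraMap F (kk F)).injective p
  have := Fact.mk hpp
  have hi := hγ.isIntegral
  rw [eval_minpolyDiv_self]
  intro h
  have h1 : derivative (minpoly (kk F) γ) = 0 := by
    by_contra h0
    exact (minpoly.degree_le_of_ne_zero _ γ h0 h).not_gt (degree_derivative_lt (minpoly.ne_zero hi))
  have h2 := expand_contract p h1 hpp.ne_zero
  have h3 : contract p (minpoly (kk F) γ) ≠ 0 := fun e => minpoly.ne_zero hi (by rw [← h2, e, map_zero])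
  have h4 := natDegree_le_natDegree (minpoly.degree_le_of_ne_zero _ (γ ^ p) h3 (by
    rw [← expand_aeval, h2, minpoly.aeval]))
  rw [← fld_rank (hγ.pow p), hst p hpp.pos, fld_rank hγ] at h4
  have h5 := congrArg natDegree h2
  rw [natDegree_expand] at h5
  have := minpoly.natDegree_pos hi
  nlinarith [hpp.two_le]

theorem pv : PVStmt F := by
  intro α c e hα hc hcF he hv
  obtain ⟨m, N, hN, hNc, hNq, hst⟩ := st α c hα (by omega)
  refine ⟨m, fun a b ha hb h => ?_⟩
  have hβ := hα.pow (c ^ m)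
  have hvβ := CarlAn.v_pow_eq hv (c ^ m)
  set β := α ^ c ^ m with hβ'
  have hcm : 0 < c ^ m := by positivity
  have h1 : 1 < Valued.v β := by
    rw [hvβ, ← exp_zero, exp_lt_exp]
    positivity
  have β0 : β ≠ 0 := fun e => by simp [e] at h1
  have hγ := hβ.pow N
  obtain ⟨V, V1, V2⟩ := good β c N (a * e * c ^ m) b hβ hc hcF hN hNc hNq hb β0 (by
    filter_upwards [(tendsto_add_atTop_nat m).eventually h] with k ⟨y, y1, g, g1, g2⟩
    refine ⟨y, y1, g, by rwa [hβ', ← pow_mul, ← pow_add, add_comm], g2.trans_eq' ?_⟩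
    push_cast
    ring)
  simp only [pow_mul] at hst
  set a' := a * e * c ^ m with ha'
  have ha0 : 0 < a' * N := by positivity
  obtain ⟨φ, s₀, hφ⟩ := funS β (β ^ N) (fun s => a' * N * s / b) V hγ (pow_ne_zero _ β0) hst
    (fun s t hst => Nat.div_le_div_right (Nat.mul_le_mul_left _ hst))
    ((Nat.tendsto_div_const_atTop hb.ne').comp (tendsto_id.const_mul_atTop' ha0)) V1 V2
  have hβL : β ∈ fld F (β ^ N) := by
    obtain ⟨C, d, -, -, h2⟩ := hφ 1 (one_mem _)
    have h3 := recS β (β ^ N) φ C hγ (by rw [map_pow]; exact one_lt_pow₀ h1 hN.ne') (by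
      filter_upwards [eventually_ge_atTop s₀] with s hs
      have := (h2 s hs).2
      rw [one_mul, one_mul] at this
      exact this.trans (exp_le_exp.2 (sub_le_self _ (Int.natCast_nonneg _)))) 0
    simp only [zero_add] at h3
    rw [← ps_apply, ps_sub_geom, sub_eq_zero, ← div_eq_iff (eval_ne hγ hst), eval_eq_sum,
      ps_apply] at h3
    have hm : ∀ i, (minpolyDiv (kk F) (β ^ N)).coeff i ∈ fld F (β ^ N) := fun i =>
      IntermediateField.algebra_adjoin_le_adjoin _ _ (coeff_minpolyDiv_mem_adjoin _ i)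
    refine (congrArg (· ∈ fld F (β ^ N)) h3).mp ?_
    exact div_mem (sum_mem fun i _ => mul_mem (hm i) ((fld F _).algebraMap_mem _))
      (sum_mem fun i _ => mul_mem (hm i) (pow_mem (self_mem _) _))
  choose C d d1 d0 hd using fun i => hφ (β ^ i * β⁻¹) (mul_mem (pow_mem hβL i) (inv_mem hβL))
  set φ' := φ ∘ₗ LinearMap.mulRight (kk F) β⁻¹
  have key : ∀ n, N * s₀ ≤ n → d (n % N) * φ' (β ^ n) ∈ A F ∧ Valued.v (φ' (β ^ n) - β ^ n) ≤
      exp (((range N).sup C : ℕ) - (a' * N * (n / N) / b : ℕ) : ℤ) := fun n hn => by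
    have h2 := hd (n % N) (n / N) ((Nat.le_div_iff_mul_le hN).2 (by rwa [mul_comm]))
    have e1 : β ^ (n % N) * (β ^ N) ^ (n / N) = β ^ n := by
      rw [← pow_mul β N, ← pow_add, Nat.mod_add_div]
    rw [mul_assoc _ β⁻¹ β, inv_mul_cancel₀ β0, mul_one, mul_right_comm, e1] at h2
    refine ⟨h2.1, h2.2.trans (exp_le_exp.2 (sub_le_sub_right ?_ _))⟩
    exact_mod_cast le_sup (f := C) (mem_range.2 (Nat.mod_lt _ hN))
  have hb1 : ∀ᶠ n in atTop, Valued.v (φ' (β ^ n) - 1 * β ^ n) ≤ exp (((range N).sup C : ℕ) : ℤ) := by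
    filter_upwards [eventually_ge_atTop (N * s₀)] with n hn
    rw [one_mul]
    exact (key n hn).2.trans (exp_le_exp.2 (sub_le_self _ (Int.natCast_nonneg _)))
  have hne : ∃ n : ℕ, φ' (β ^ n) ≠ 0 := by
    by_contra hc
    push Not at hc
    exact one_ne_zero (eq_zero_of_bdd (w := 1) h1 (hb1.mono fun n hn => by simpa [hc] using hn))
  refine ⟨intS β (∏ i ∈ range N, d i) φ' hβ β0 (prod_mem fun i _ => d1 i)
    (prod_ne_zero_iff.2 fun i _ => d0 i) hne ?_, fun i j hij g hg => ?_⟩
  · filter_upwards [eventually_ge_atTop (N * s₀)] with n hn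
    rw [← prod_erase_mul _ _ (mem_range.2 (Nat.mod_lt n hN)), mul_assoc]
    exact mul_mem (prod_mem fun i _ => d1 i) (key n hn).1
  · have := npS β φ' a' b (b * (range N).sup C + b + a' * N) hβ β0 hb hne
      (by simpa only [one_mul] using recS 1 β φ' _ hβ h1 hb1) ?_ i j hij g hg
    · rw [ha'] at this
      exact_mod_cast this
    filter_upwards [eventually_ge_atTop (N * s₀)] with n hn
    refine ⟨_, (key n hn).2, ?_⟩
    have e1 : a' * N * (n / N) < b * (a' * N * (n / N) / b) + b := Nat.lt_mul_div_succ _ hb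
    have e2 : a' * n ≤ a' * N * (n / N) + a' * N := by
      rw [mul_assoc a' N, ← mul_add]
      exact Nat.mul_le_mul_left _ (Nat.lt_mul_div_succ n hN).le
    zify at e1 e2
    push_cast at e1 e2 ⊢
    linarith

end Pool.Agent.MF
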