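import Pool.Agent.Lib.MP_2c63aa_nt.MF.Chain
import Pool.Agent.Lib.MP_2c63aa_nt.MF.PV

/-! The shape of an algebraic least Mills element. -/

namespace Pool.Agent.MF

open Polynomial Finset Filter WithZero Pool.Agent.Carl Pool.Agent.MillsF

set_option linter.unusedSectionVars false

variable {F : Type} [Field F] [Fintype F]

theorem floor_eq {z y : LaurentSeries F} {P : F[X]} (h : IsFloor z P) (hy : z + y ∈ A F)
    (hv : Valued.v y < 1) : io F P = z + y :=
  eq_of_close (io_mem P) hy h (by rwa [sub_add_cancel_left, Valuation.map_neg])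

theorem three_mem : (3 : LaurentSeries F) ∈ A F := by exact_mod_cast natCast_mem (A F) 3

theorem core {c : ℕ} {S : Set F} {σ : F} {α : LaurentSeries F} (hc : 3 ≤ c) (hF : (c : F) ≠ 0)
    (hσ : σ ∈ S) (σ0 : σ ≠ 0) (h : IsLeastMills c S α) (ha : IsAlgebraic (kk F) α) :
    ∃ m : ℕ, 1 < Valued.v (α ^ c ^ m) ∧
      ((c = 3 ∧ ∃ s w, (minpoly (kk F) (α ^ c ^ m)).map (algebraMap _ (LaurentSeries F)) =
          (X ^ 2 - C s * X + C w) * (X - C (α ^ c ^ m)) ∧ α ^ c ^ m + s ∈ A F ∧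
          α ^ c ^ m * s + w ∈ A F ∧ α ^ c ^ m * w ∈ A F ∧ Valued.v (α ^ c ^ m * w) = 1 ∧
          Valued.v s ^ 2 ≤ Valued.v w) ∨
        (c = 4 ∧ ∃ y, (minpoly (kk F) (α ^ c ^ m)).map (algebraMap _ (LaurentSeries F)) =
          (X - C y) * (X - C (α ^ c ^ m)) ∧ α ^ c ^ m + y ∈ A F ∧ α ^ c ^ m * y ∈ A F ∧
          Valued.v (α ^ c ^ m * y) = 1)) := by
  choose P hP using h.1
  set e := (P 0).natDegree
  have e0 : 0 < e := (hP 0).2.1.natDegree_pos
  have he : Valued.v α = exp (e : ℤ) := by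
    have := v_eq_of_floor e0 (hP 0).1
    rwa [pow_zero, pow_one, v_io (hP 0).2.1.ne_zero] at this
  obtain ⟨m, hm⟩ := pv α c e ha (by omega) hF e0 he
  have hm' := fun B (hB : 2 ≤ B) => hm ((c - 2) * B - 1) (2 * B)
    (by have : 1 * 2 ≤ (c - 2) * B := Nat.mul_le_mul (by omega) hB; omega) (by omega)
    (least_gap hc hF hσ σ0 h e0 he hB)
  have hd : ¬ P m ∣ P (m + 1) := fun hd => by
    have := natDegree_eq_of_degree_eq (degree_eq_degree_of_associated
      ((hP m).2.1.associated_of_dvd (hP (m + 1)).2.1 hd))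
    rw [floor_deg he (hP _).1 (hP _).2.1, floor_deg he (hP _).1 (hP _).2.1] at this
    have := Nat.pow_right_injective (show 2 ≤ c by omega) (Nat.eq_of_mul_eq_mul_left e0 this)
    omega
  have f0 := (hP m).1
  have f1 := (hP (m + 1)).1
  rw [pow_succ, pow_mul] at f1
  obtain ⟨n, hn⟩ : ∃ n : ℤ, n = e * c ^ m := ⟨_, rfl⟩
  have n0 : 0 < n := by rw [hn]; positivity
  have hβ : IsIntegral (kk F) (α ^ c ^ m) := ha.isIntegral.pow _
  have hv : Valued.v (α ^ c ^ m) = exp n := by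
    rw [CarlAn.v_pow_eq he, hn, mul_comm]; norm_cast
  refine ⟨m, ?_⟩
  generalize α ^ c ^ m = β at *
  have hN : ∀ i j : ℕ, i + j = (minpolyDiv (kk F) β).natDegree → ∀ g : ℤ,
      Valued.v ((minpolyDiv (kk F) β).coeff i) = exp g → 2 * g + (c - 2) * n * j ≤ 0 := by
    intro i j hij g hg
    obtain ⟨B, hB, hB'⟩ : ∃ B : ℕ, 2 ≤ B ∧ n * j < B := ⟨(n * j).toNat + 2, by omega, by omega⟩
    have := (hm' B hB).2 i j hij g hg
    have h4 : 1 ≤ (c - 2) * B := Nat.mul_pos (by omega) (by omega)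
    rw [mul_assoc _ (e : ℤ), ← hn] at this
    push_cast [h4, show 2 ≤ c by omega] at this
    by_contra hc'
    nlinarith [mul_le_mul_of_nonneg_left (Int.add_one_le_of_lt (not_le.1 hc')) (Int.natCast_nonneg B)]
  have β0 : β ≠ 0 := fun e => exp_ne_zero (hv.symm.trans (by rw [e, map_zero]))
  have hA : ∀ i, (minpolyDiv (kk F) β * (X - C β)).coeff i ∈ A F := fun i => by
    rw [minpolyDiv_spec, coeff_map]
    exact (hm' 2 le_rfl).1 i
  have h0 : (minpolyDiv (kk F) β * (X - C β)).coeff 0 ≠ 0 := by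
    rw [minpolyDiv_spec, coeff_map]
    exact (_root_.map_ne_zero _).2 (minpoly.coeff_zero_ne_zero hβ β0)
  have hmon := minpolyDiv_monic hβ
  clear hm hm'
  rw [← minpolyDiv_spec]
  generalize minpolyDiv (kk F) β = ν at *
  have h1 := one_le_v (hA 0) h0
  rw [mul_coeff_zero] at h0 h1
  obtain ⟨g, hg⟩ := exists_v_eq (left_ne_zero_of_mul h0)
  simp only [coeff_sub, coeff_X_zero, coeff_C_zero, zero_sub, map_mul, Valuation.map_neg, hg, hv,
    ← exp_add, ← exp_zero, exp_le_exp] at h1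
  have h2 := hN 0 _ (zero_add _) g hg
  have h3 : ((c : ℤ) - 2) * ν.natDegree ≤ 2 := by
    by_contra h3
    nlinarith
  refine ⟨by rw [hv, ← exp_zero, exp_lt_exp]; exact n0, ?_⟩
  have hs := hmon.as_sum
  obtain hr | hr | hr : ν.natDegree = 0 ∨ ν.natDegree = 1 ∨ ν.natDegree = 2 := by
    have : (ν.natDegree : ℤ) ≤ 2 := by
      nlinarith [mul_nonneg (show (0 : ℤ) ≤ c - 3 by omega) (Int.natCast_nonneg ν.natDegree)]
    omega
  · exfalso
    have a0 := hA 0
    rw [hs, hr] at a0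
    replace a0 : β ∈ A F := by simpa using a0
    have e1 := floor_eq (y := 0) f0 (by simpa using a0) (by simp)
    have e2 := floor_eq (y := 0) f1 (by simpa using pow_mem a0 c) (by simp)
    rw [add_zero] at e1 e2
    rw [← e1, ← map_pow] at e2
    exact hd (io_inj e2 ▸ dvd_pow_self _ (by omega))
  · obtain ⟨y, hy⟩ : ∃ y, y = -ν.coeff 0 := ⟨_, rfl⟩
    have hν : ν = X - C y := by rw [hy, map_neg, sub_neg_eq_add]; exact hmon.eq_X_add_C hr
    have a0 := hA 0
    have a1 := neg_mem (hA 1)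
    have vy : Valued.v y = exp g := by rw [hy, Valuation.map_neg, hg]
    have ee : ν * (X - C β) = X ^ 2 - C (β + y) * X + C (β * y) := by
      rw [hν, map_add, map_mul]; ring
    rw [ee] at a0 a1
    simp only [coeff_add, coeff_sub, coeff_X_pow, coeff_C_mul, coeff_X, coeff_C] at a0 a1
    norm_num at a0 a1
    rw [hr] at h2 h3
    obtain rfl | rfl : c = 3 ∨ c = 4 := by omega
    · exfalso
      have v1 : Valued.v y < 1 := by rw [vy, ← exp_zero, exp_lt_exp]; omega
      obtain ⟨b, hb⟩ := exists_io a0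
      have e1 := floor_eq f0 a1 v1
      have e3 : β ^ 3 + y ^ 3 = (β + y) * ((β + y) ^ 2 - 3 * (β * y)) := by ring
      have e2 := floor_eq (y := y ^ 3) f1 (e3 ▸ mul_mem a1 (sub_mem (pow_mem a1 _)
        (mul_mem three_mem a0))) (by rw [map_pow]; exact pow_lt_one' v1 (by omega))
      refine hd ⟨P m ^ 2 - 3 * b, io_inj ?_⟩
      rw [e2, e3, ← e1, ← hb]
      simp [map_ofNat]
    · refine Or.inr ⟨rfl, y, by rw [hν], a1, a0, ?_⟩
      rw [map_mul, hv, vy, ← exp_add, ← exp_zero, exp_inj]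
      omega
  · rw [hr] at h2 h3
    obtain rfl : c = 3 := by omega
    obtain ⟨s, hs'⟩ : ∃ s, s = -ν.coeff 1 := ⟨_, rfl⟩
    obtain ⟨w, hw⟩ : ∃ w, w = ν.coeff 0 := ⟨_, rfl⟩
    have hν : ν = X ^ 2 - C s * X + C w := by
      rw [hs', hw, map_neg]
      conv_lhs => rw [hs, hr, sum_range_succ, sum_range_one]
      ring
    have a0 := neg_mem (hA 0)
    have a1 := hA 1
    have a2 := neg_mem (hA 2)
    have ee : ν * (X - C β) = X ^ 3 - C (β + s) * X ^ 2 + C (β * s + w) * X - C (β * w) := by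
      rw [hν, map_add, map_add, map_mul, map_mul]; ring
    rw [ee] at a0 a1 a2
    simp only [coeff_add, coeff_sub, coeff_X_pow, coeff_C_mul, coeff_X, coeff_C] at a0 a1 a2
    norm_num at a0 a1 a2
    rw [← hw] at hg
    refine Or.inl ⟨rfl, s, w, by rw [hν], a2, a1, a0, ?_, ?_⟩
    · rw [map_mul, hv, hg, ← exp_add, ← exp_zero, exp_inj]
      omega
    · rcases eq_or_ne s 0 with s0 | s0
      · simp [s0]
      obtain ⟨g', hg'⟩ := exists_v_eq s0
      have := hN 1 1 hr.symm g' (by rw [← hg', hs', Valuation.map_neg])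
      rw [hg', hg, ← exp_nsmul, exp_le_exp, nsmul_eq_mul]
      omega

end Pool.Agent.MF
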