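import Pool.Agent.Lib.MP_0370b2_nt.CS.Car
import Pool.Agent.Lib.MP_639284_nt.RH
import Pool.Agent.Shared.HasseDavenport

/-! Mills sequences over `F[T]`: the block statements. -/

namespace Pool.Agent.MF

open Polynomial Finset Filter WithZero Pool.Agent.Carl Pool.Agent.Lib.MP_639284_nt

variable (F : Type) [Field F] [Fintype F]

/-- a polynomial in `T`, read in `F((1/T))` -/
noncomputable def io : F[X] →ₐ[F] LaurentSeries F := aeval (th F)

/-- the field generated over `F(T)` by `x` -/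
noncomputable def fld (x : LaurentSeries F) : IntermediateField (kk F) (LaurentSeries F) :=
  IntermediateField.adjoin (kk F) {x}

/-! ### Part R: irreducible polynomials in short intervals -/

/-- one Artin-Schreier step for degree structures -/
def ASStmt : Prop :=
  ∀ (k O : Type) [Field k] [CommRing O] [Algebra k O] (S : DegStr k O) (q : ℕ) (f : O), 2 ≤ q →
    Nat.Coprime (S.dg f) q →
    ∃ S' : DegStr k (AdjoinRoot (X ^ q - X + C f : O[X])),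
      (∀ a, S'.dg (AdjoinRoot.of _ a) = q * S.dg a) ∧ S'.dg (AdjoinRoot.root _) = S.dg f ∧
      (∀ a, a ≠ 0 → AdjoinRoot.of (X ^ q - X + C f : O[X]) a ≠ 0)

/-- `y^(q) = (1 - x t) y` modulo `t ^ (m + 1)` -/
def Rel {B : Type} [CommRing B] (q m : ℕ) (x : B) (y : ℕ → B) : Prop :=
  y 0 = 1 ∧ ∀ i < m, y (i + 1) ^ q = y (i + 1) - x * y i

/-- the Lang cover of the affine line -/
structure Tow (k : Type) [Field k] (q m : ℕ) where
  O : Type
  [cr : CommRing O]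
  [al : Algebra k O]
  S : DegStr k O
  x : O
  y : ℕ → O
  rel : Rel q m x y
  ex : ∀ (B : Type) [CommRing B] [Algebra k B] (x' : B) (y' : ℕ → B), Rel q m x' y' →
    ∃ ψ : O →ₐ[k] B, ψ x = x' ∧ ∀ i ≤ m, ψ (y i) = y' i
  un : ∀ (B : Type) [CommRing B] [Algebra k B] (ψ ψ' : O →ₐ[k] B), ψ x = ψ' x →
    (∀ i ≤ m, ψ (y i) = ψ' (y i)) → ψ = ψ'

def TowStmt : Prop := ∀ (k : Type) [Field k] (q m : ℕ), 2 ≤ q → Nonempty (Tow k q m)

/-- the monic polynomial of degree `s` attached to a point `x` with `x ^ q ^ s = x` -/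
noncomputable def nm {Ω : Type} [Field Ω] [Algebra F Ω] (s : ℕ) (x : Ω) : F[X] :=
  minpoly F x ^ (s / (minpoly F x).natDegree)

/-- the number of points over the extension of degree `s` in the interval around `f` -/
noncomputable def cnt (m s : ℕ) (f : F[X]) : ℕ :=
  {x : AlgebraicClosure F | x ^ Fintype.card F ^ s = x ∧
    (nm F s x - f).degree < (s - m : ℕ)}.ncard

/-- the upper bound of Bombieri -/
def CntStmt : Prop :=
  ∀ m : ℕ, ∃ C : ℕ, ∀ᶠ s in atTop, ∀ f : F[X], f.Monic → f.natDegree = 2 * s →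
    Fintype.card F ^ m * cnt F m (2 * s) f ≤ Fintype.card F ^ (2 * s) + C * Fintype.card F ^ s

/-- bounded power sums have bounded terms -/
def PowStmt : Prop :=
  ∀ (M : Multiset ℂ) (R C : ℝ), 0 < R →
    (∀ᶠ n in atTop, ‖(M.map (· ^ n)).sum‖ ≤ C * R ^ n) → ∀ z ∈ M, ‖z‖ ≤ R

/-- `L`-polynomials on the affine line -/
def LfStmt : Prop :=
  ∀ (W : F[X] → ℂ) (m : ℕ), W 1 = 1 → (∀ P Q : F[X], P.Monic → Q.Monic → W (P * Q) = W P * W Q) →
    (∀ n, m ≤ n → ∑ P ∈ Pool.Agent.Shared.HasseDavenport.mon F n, W P = 0) →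
    ∃ M : Multiset ℂ, M.card ≤ m - 1 ∧ ∀ s, 0 < s →
      ∑ᶠ x ∈ {x : AlgebraicClosure F | x ^ Fintype.card F ^ s = x}, W (nm F s x) =
        -(M.map (· ^ s)).sum

/-- the Riemann hypothesis for intervals, squared form -/
def WeilStmt : Prop :=
  ∀ (m s : ℕ) (f : F[X]), 0 < s → m ≤ s → f.Monic → f.natDegree = s →
    (Fintype.card F : ℝ) ^ s ≤ (Fintype.card F : ℝ) ^ m *
      (cnt F m s f + ((m - 1 : ℕ) : ℝ) * √(Fintype.card F : ℝ) ^ s)

/-- an irreducible polynomial in every interval that is a little longer than the square root -/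
def SIStmt : Prop :=
  ∀ (m : ℕ) (f : F[X]), 0 < m → (m + 1) ^ 2 * 2 ^ (2 * m) < 2 ^ f.natDegree →
    ∃ g : F[X], Irreducible g ∧ (g - f).degree < (f.natDegree - m : ℕ)

/-! ### Part P: powers close to polynomials -/

/-- Frobenius keeps linear independence over `F(T)` -/
def IndStmt : Prop :=
  ∀ (ι : Type) (w : ι → LaurentSeries F) (E : ℕ), LinearIndependent (kk F) w →
    LinearIndependent (kk F) fun i => w i ^ Fintype.card F ^ E

/-- a stable exponent -/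
def StStmt : Prop :=
  ∀ (α : LaurentSeries F) (c : ℕ), IsAlgebraic (kk F) α → 0 < c →
    ∃ m N : ℕ, 0 < N ∧ N.Coprime c ∧ N.Coprime (Fintype.card F) ∧
      ∀ D, 0 < D → fld F ((α ^ c ^ m) ^ (N * D)) = fld F ((α ^ c ^ m) ^ N)

/-- the finite automaton of Christol -/
def AutStmt : Prop :=
  ∀ (L : IntermediateField (kk F) (LaurentSeries F)) (E : ℕ) (T : Finset (LaurentSeries F)),
    FiniteDimensional (kk F) L → 0 < E → (∀ x ∈ T, x ∈ L) →
    ∃ V : Finset (LaurentSeries F), 1 ∈ V ∧ (∀ a ∈ V, a ∈ L) ∧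
      ∀ x ∈ T, ∀ a ∈ V, ∀ r < Fintype.card F ^ E, U F E r (x * a) ∈ V

/-- leading digits of powers -/
def DigStmt : Prop :=
  ∀ p c E N : ℕ, p.Prime → 2 ≤ c → ¬ p ∣ c → 0 < E → 0 < N → N.Coprime c → ∀ s k₀ : ℕ, 0 < s →
    ∃ k u t : ℕ, k₀ ≤ k ∧ c ^ k = 1 + N * u ∧ u / (p ^ E) ^ t = s

/-- every large power is approximated after multiplication by one of finitely many elements -/
def GoodStmt : Prop :=
  ∀ (β : LaurentSeries F) (c N a b : ℕ), IsAlgebraic (kk F) β → 2 ≤ c → (c : F) ≠ 0 → 0 < N →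
    N.Coprime c → N.Coprime (Fintype.card F) → 0 < b → β ≠ 0 →
    (∀ᶠ k in atTop, ∃ y ∈ A F, ∃ g : ℤ, Valued.v (β ^ c ^ k - y) ≤ exp g ∧
      b * g + a * c ^ k ≤ 0) →
    ∃ V : Finset (LaurentSeries F), (∀ x ∈ V, x ∈ fld F (β ^ N) ∧ x ≠ 0) ∧ ∀ s, 0 < s →
      ∃ x ∈ V, ∃ y ∈ A F, Valued.v (x * β * (β ^ N) ^ s - y) ≤ exp (-((a * N * s / b : ℕ) : ℤ))

/-- gluing the approximations to one linear functional (van der Waerden) -/
def FunStmt : Prop :=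
  ∀ (θ γ : LaurentSeries F) (ρ : ℕ → ℕ) (V : Finset (LaurentSeries F)), IsAlgebraic (kk F) γ →
    γ ≠ 0 → (∀ D, 0 < D → fld F (γ ^ D) = fld F γ) → Monotone ρ → Tendsto ρ atTop atTop →
    (∀ x ∈ V, x ∈ fld F γ ∧ x ≠ 0) →
    (∀ s, 0 < s → ∃ x ∈ V, ∃ y ∈ A F, Valued.v (x * θ * γ ^ s - y) ≤ exp (-(ρ s : ℤ))) →
    ∃ (φ : LaurentSeries F →ₗ[kk F] kk F) (s₀ : ℕ), ∀ x ∈ fld F γ, ∃ (C : ℕ) (d : LaurentSeries F),
      d ∈ A F ∧ d ≠ 0 ∧ ∀ s, s₀ ≤ s → d * φ (x * γ ^ s) ∈ A F ∧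
        Valued.v (φ (x * γ ^ s) - x * θ * γ ^ s) ≤ exp ((C : ℤ) - ρ s)

/-- the error terms satisfy the recurrence of `minpoly / (X - γ)` -/
def RecStmt : Prop :=
  ∀ (θ γ : LaurentSeries F) (φ : LaurentSeries F →ₗ[kk F] kk F) (C : ℕ), IsAlgebraic (kk F) γ →
    1 < Valued.v γ → (∀ᶠ s in atTop, Valued.v (φ (γ ^ s) - θ * γ ^ s) ≤ exp (C : ℤ)) →
    ∀ s : ℕ, (minpolyDiv (kk F) γ).sum (fun j x => x * (φ (γ ^ (s + j)) - θ * γ ^ (s + j))) = 0

/-- integrality (Fatou) -/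
def IntStmt : Prop :=
  ∀ (β d : LaurentSeries F) (φ : LaurentSeries F →ₗ[kk F] kk F), IsAlgebraic (kk F) β → β ≠ 0 →
    d ∈ A F → d ≠ 0 → (∃ n : ℕ, φ (β ^ n) ≠ 0) → (∀ᶠ n in atTop, d * φ (β ^ n) ∈ A F) →
    ∀ i, ((minpoly (kk F) β).coeff i : LaurentSeries F) ∈ A F

/-- the Newton polygon -/
def NPStmt : Prop :=
  ∀ (β : LaurentSeries F) (φ : LaurentSeries F →ₗ[kk F] kk F) (a b C : ℕ), IsAlgebraic (kk F) β →
    β ≠ 0 → 0 < b → (∃ n : ℕ, φ (β ^ n) ≠ 0) →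
    (∀ s : ℕ, (minpolyDiv (kk F) β).sum (fun j x => x * (φ (β ^ (s + j)) - β ^ (s + j))) = 0) →
    (∀ᶠ n : ℕ in atTop, ∃ g : ℤ, Valued.v (φ (β ^ n) - β ^ n) ≤ exp g ∧ b * g + a * n ≤ C) →
    ∀ i j : ℕ, i + j = (minpolyDiv (kk F) β).natDegree → ∀ g : ℤ,
      Valued.v ((minpolyDiv (kk F) β).coeff i) = exp g → b * g + a * j ≤ 0

/-- the substitute in characteristic `p` for the theorems of Mahler and Corvaja-Zannier -/
def PVStmt : Prop :=
  ∀ (α : LaurentSeries F) (c e : ℕ), IsAlgebraic (kk F) α → 2 ≤ c → (c : F) ≠ 0 → 0 < e →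
    Valued.v α = exp (e : ℤ) → ∃ m : ℕ, ∀ a b : ℕ, 0 < a → 0 < b →
      (∀ᶠ k in atTop, ∃ y ∈ A F, ∃ g : ℤ, Valued.v (α ^ c ^ k - y) ≤ exp g ∧
        b * g + a * e * c ^ k ≤ 0) →
      (∀ i, ((minpoly (kk F) (α ^ c ^ m)).coeff i : LaurentSeries F) ∈ A F) ∧
      ∀ i j : ℕ, i + j = (minpolyDiv (kk F) (α ^ c ^ m)).natDegree → ∀ g : ℤ,
        Valued.v ((minpolyDiv (kk F) (α ^ c ^ m)).coeff i) = exp g → b * g + a * e * c ^ m * j ≤ 0

/-! ### Part M: Mills sequences -/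

/-- differences of powers of exponent prime to the characteristic -/
def PDStmt : Prop :=
  ∀ (n : ℕ) (x y : LaurentSeries F), (n : F) ≠ 0 → Valued.v (y - x) < Valued.v x →
    Valued.v (y ^ n - x ^ n) = Valued.v (y - x) * Valued.v x ^ (n - 1)

/-- existence and uniqueness of the limit -/
def ExStmt : Prop :=
  ∀ (c : ℕ) (P : ℕ → F[X]), 2 ≤ c → (c : F) ≠ 0 → 0 < (P 0).natDegree →
    (∀ k, (P (k + 1) - P k ^ c).degree < ((c - 1) * (P k).natDegree : ℕ)) →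
    ∃ α : LaurentSeries F, ∀ β : LaurentSeries F,
      (∀ k, Valued.v (β ^ c ^ k - io F (P k)) < 1) ↔ β = α

/-- the main theorem -/
def MainStmt : Prop :=
  ∀ (c : ℕ) (P : ℕ → F[X]), 3 ≤ c → (c : F) ≠ 0 → 6 ≤ (P 0).natDegree → (∀ k, Irreducible (P k)) →
    (∀ k Q, Irreducible Q → (P (k + 1) - P k ^ c).degree ≤ (Q - P k ^ c).degree) →
    ∃ α : LaurentSeries F, (∀ β : LaurentSeries F,
      (∀ k, Valued.v (β ^ c ^ k - io F (P k)) < 1) ↔ β = α) ∧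
      (Transcendental (kk F) α ∨ ∃ (m : ℕ) (a b : F[X]) (u : F), u ≠ 0 ∧
        (c = 3 ∧ 2 * b.natDegree ≤ a.natDegree ∧
          (minpoly (kk F) (α ^ c ^ m)).map (algebraMap _ (LaurentSeries F)) =
            X ^ 3 - C (io F a) * X ^ 2 + C (io F b) * X - C (io F (C u)) ∨
        c = 4 ∧ (minpoly (kk F) (α ^ c ^ m)).map (algebraMap _ (LaurentSeries F)) =
            X ^ 2 - C (io F a) * X + C (io F (C u))))

end Pool.Agent.MF
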