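import Pool.Agent.Lib.MP_2c63aa_nt.MF.Bas

/-! Roots, leading coefficients and the limit of a chain of polynomials. -/

namespace Pool.Agent.MF

open Polynomial Finset Filter WithZero Pool.Agent.Carl Topology

set_option linter.unusedSectionVars false

variable {F : Type} [Field F] [Fintype F]

theorem lc_eq {x : LaurentSeries F} {d : ℤ} (h : Valued.v x = exp d) :
    x.leadingCoeff = x.coeff (-d) := by
  have x0 : x ≠ 0 := fun e => exp_ne_zero (h.symm.trans (by rw [e, map_zero]))
  rw [HahnSeries.leadingCoeff_eq]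
  congr 1
  refine le_antisymm ?_ (not_lt.1 fun hc => HahnSeries.coeff_order_eq_zero.not.2 x0
    (v_le_iff.1 h.le _ hc))
  by_contra hc
  have : Valued.v x ≤ exp (d - 1) :=
    v_le_iff.2 fun n hn => HahnSeries.coeff_eq_zero_of_lt_order (by omega)
  rw [h, exp_le_exp] at this
  omega

theorem le_pred {x : LaurentSeries F} {d : ℤ} (h : Valued.v x < exp d) :
    Valued.v x ≤ exp (d - 1) := by
  rwa [← WithZero.lt_mul_exp_iff_le exp_ne_zero, ← exp_add, sub_add_cancel]

theorem lc_add {x y : LaurentSeries F} (h : Valued.v y < Valued.v x) :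
    (x + y).leadingCoeff = x.leadingCoeff := by
  obtain ⟨d, hd⟩ := exists_v_eq (z := x) fun e => by simp [e] at h
  rw [lc_eq hd, lc_eq ((Valuation.map_add_eq_of_lt_left _ h).trans hd), HahnSeries.coeff_add,
    v_le_iff.1 (le_pred (x := y) (h.trans_eq hd)) _ (by omega), add_zero]

theorem lc_add_eq {x y : LaurentSeries F} (x0 : x ≠ 0) (h : Valued.v y = Valued.v x)
    (h' : Valued.v (x + y) = Valued.v x) : (x + y).leadingCoeff = x.leadingCoeff + y.leadingCoeff := by
  obtain ⟨d, hd⟩ := exists_v_eq x0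
  rw [lc_eq hd, lc_eq (h.trans hd), lc_eq (h'.trans hd), HahnSeries.coeff_add]

theorem lc_io (P : F[X]) : (io F P).leadingCoeff = P.leadingCoeff := by
  rcases eq_or_ne P 0 with rfl | h
  · simp
  · rw [lc_eq (v_io h), io_coeff, coeff_natDegree]

theorem lc_natCast (n : ℕ) : (n : LaurentSeries F).leadingCoeff = n := by
  have := lc_io (C (n : F))
  rwa [leadingCoeff_C, map_natCast, map_natCast] at this

theorem lc_pow (x : LaurentSeries F) (n : ℕ) : (x ^ n).leadingCoeff = x.leadingCoeff ^ n := by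
  induction n with
  | zero => simp
  | succ n ih => rw [pow_succ, pow_succ, HahnSeries.leadingCoeff_mul, ih]

theorem lc_pd {n : ℕ} {x y : LaurentSeries F} (hn : (n : F) ≠ 0)
    (h : Valued.v (y - x) < Valued.v x) :
    (y ^ n - x ^ n).leadingCoeff = n * x.leadingCoeff ^ (n - 1) * (y - x).leadingCoeff := by
  have hx : 0 < Valued.v x := lt_of_le_of_lt zero_le h
  have hy : Valued.v y = Valued.v x := by
    rw [show y = x + (y - x) by ring]
    exact Valuation.map_add_eq_of_lt_left _ h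
  have key : ∀ i : ℕ, Valued.v (y ^ i - x ^ i) < Valued.v x ^ i := by
    intro i
    induction i with
    | zero => simp
    | succ i ih =>
      rw [show y ^ (i + 1) - x ^ (i + 1) = y * (y ^ i - x ^ i) + (y - x) * x ^ i by ring, pow_succ']
      refine Valuation.map_add_lt _ ?_ ?_
      · rw [map_mul, hy]
        exact mul_lt_mul_of_pos_left ih hx
      · rw [map_mul, map_pow]
        exact mul_lt_mul_of_pos_right h (pow_pos hx _)
  rw [← Commute.mul_geom_sum₂ (Commute.all y x), HahnSeries.leadingCoeff_mul, mul_comm]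
  congr 1
  have e : ∑ i ∈ range n, y ^ i * x ^ (n - 1 - i) =
      n * x ^ (n - 1) + ∑ i ∈ range n, (y ^ i - x ^ i) * x ^ (n - 1 - i) := by
    rw [← nsmul_eq_mul, ← card_range n, ← sum_const, card_range, ← sum_add_distrib]
    refine sum_congr rfl fun i hi => ?_
    have : n - 1 = i + (n - 1 - i) := by have := mem_range.1 hi; omega
    conv_rhs => rw [this, pow_add, ← this]
    ring
  rw [e, lc_add, HahnSeries.leadingCoeff_mul, lc_natCast, lc_pow]
  rw [map_mul, v_natCast hn, one_mul, map_pow]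
  refine Valuation.map_sum_lt _ (pow_pos hx _).ne' fun i hi => ?_
  have : n - 1 = i + (n - 1 - i) := by have := mem_range.1 hi; omega
  conv_rhs => rw [this, pow_add]
  rw [map_mul, map_pow]
  exact mul_lt_mul_of_pos_right (key i) (pow_pos hx _)

theorem one_lt_v {P : F[X]} (h : 0 < P.natDegree) : 1 < Valued.v (io F P) := by
  rw [v_io (ne_zero_of_natDegree_gt h), ← exp_zero, exp_lt_exp]
  exact_mod_cast h

/-- the fractional part at one level is read off from the integral part at the next level -/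
theorem link {c : ℕ} {z : LaurentSeries F} {P Q : F[X]} (hc : (c : F) ≠ 0) (hP : 0 < P.natDegree)
    (h1 : Valued.v (z - io F P) < 1) (h2 : Valued.v (z ^ c - io F Q) < 1) (hQ : Q ≠ P ^ c) :
    Valued.v (io F (Q - P ^ c)) = Valued.v (z - io F P) * Valued.v (io F P) ^ (c - 1) ∧
      (Q - P ^ c).leadingCoeff = c * P.leadingCoeff ^ (c - 1) * (z - io F P).leadingCoeff := by
  have h3 := h1.trans (one_lt_v hP)
  have h4 := h2.trans_le (one_le_v (io_mem _) (io_ne (sub_ne_zero.2 hQ)))
  have e : z ^ c - io F P ^ c = io F (Q - P ^ c) + (z ^ c - io F Q) := by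
    rw [map_sub, map_pow]
    ring
  rw [← pd c _ _ hc h3, ← lc_io P, ← lc_pd hc h3, e, Valuation.map_add_eq_of_lt_left _ h4,
    lc_add h4, lc_io]
  exact ⟨rfl, rfl⟩

theorem exists_root_one {n : ℕ} (hn : (n : F) ≠ 0) {w : LaurentSeries F}
    (h : Valued.v (w - 1) < 1) : ∃ x, x ^ n = w ∧ Valued.v (x - 1) < 1 := by
  have n0 : n ≠ 0 := by rintro rfl; simp at hn
  have key : ∀ f : PowerSeries F, Valued.v ((f : LaurentSeries F) - 1) < 1 ↔
      f - 1 ∈ Ideal.span {(PowerSeries.X : PowerSeries F)} := fun f => by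
    rw [Ideal.mem_span_singleton, PowerSeries.X_dvd_iff, ← PowerSeries.coe_one,
      ← PowerSeries.coe_sub, ← PowerSeries.coeff_zero_eq_constantCoeff_apply]
    constructor
    · intro h
      exact v_le_iff.1 (le_pred (d := 0) h) (0 : ℕ) (by simp) ▸
        (LaurentSeries.coeff_coe_powerSeries _ 0).symm
    · intro h
      refine lt_of_le_of_lt (v_le_iff (d := -1).2 fun m hm => ?_)
        (by rw [← exp_zero, exp_lt_exp]; omega)
      rw [PowerSeries.coeff_coe]
      split_ifs with h1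
      · rfl
      · rwa [show m.natAbs = 0 by omega]
  obtain ⟨f, rfl⟩ := (LaurentSeries.val_le_one_iff_eq_coe F w).1 (by
    rw [show w = 1 + (w - 1) by ring]
    exact Valuation.map_add_le _ (by simp) h.le)
  obtain ⟨a, a1, a2⟩ := HenselianRing.is_henselian (I := Ideal.span {PowerSeries.X})
    (X ^ n - C f) (monic_X_pow_sub_C f n0) 1 (by simpa using neg_mem ((key f).1 h)) (by
      refine IsUnit.map _ ?_
      simpa [derivative_X_pow] using (IsUnit.mk0 _ hn).map (algebraMap F (PowerSeries F)))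
  refine ⟨a, ?_, (key a).2 a2⟩
  rw [IsRoot.def, eval_sub, eval_pow, eval_X, eval_C, sub_eq_zero] at a1
  rw [← a1, PowerSeries.coe_pow]

theorem exists_root {n : ℕ} (hn : (n : F) ≠ 0) {z w : LaurentSeries F}
    (h : Valued.v (w - z ^ n) < Valued.v z ^ n) :
    ∃ x, x ^ n = w ∧ Valued.v (x - z) < Valued.v z := by
  have n0 : n ≠ 0 := by rintro rfl; simp at hn
  have z0 : z ≠ 0 := fun e => by simp [e, n0] at h
  have hz : 0 < Valued.v z := (Valuation.pos_iff _).2 z0
  obtain ⟨x, x1, x2⟩ := exists_root_one hn (w := w / z ^ n) (by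
    rwa [div_sub_one (pow_ne_zero _ z0), map_div₀, map_pow, div_lt_one₀ (pow_pos hz n)])
  refine ⟨z * x, by rw [mul_pow, x1, mul_div_cancel₀ _ (pow_ne_zero _ z0)], ?_⟩
  rw [← mul_sub_one, map_mul]
  exact mul_lt_of_lt_one_right hz x2

theorem v_eq_of_floor {z : LaurentSeries F} {P : F[X]} (hP : 0 < P.natDegree)
    (h : Valued.v (z - io F P) < 1) : Valued.v z = Valued.v (io F P) := by
  rw [show z = io F P + (z - io F P) by ring]
  exact Valuation.map_add_eq_of_lt_left _ (h.trans (one_lt_v hP))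

theorem exists_limit {c : ℕ} {P : ℕ → F[X]} (hc : 2 ≤ c) (hF : (c : F) ≠ 0)
    (h0 : ∀ k, 0 < (P k).natDegree)
    (h : ∀ k, (P (k + 1) - P k ^ c).degree < ((c - 1) * (P k).natDegree : ℕ)) :
    ∃ α : LaurentSeries F, ∀ k, Valued.v (α ^ c ^ k - io F (P k)) < 1 := by
  have hn : ∀ k, ((c ^ k : ℕ) : F) ≠ 0 := fun k => by simp [hF]
  have hv : ∀ k x, x ^ c ^ k = io F (P k) → 1 < Valued.v x := fun k x hx => by
    by_contra hx'
    exact (one_lt_v (h0 k)).not_ge (by rw [← hx, map_pow]; exact pow_le_one' (not_lt.1 hx') _)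
  have step : ∀ k x, x ^ c ^ k = io F (P k) → ∃ y, y ^ c ^ (k + 1) = io F (P (k + 1)) ∧
      Valued.v (y - x) * Valued.v x ^ (c ^ k - 1) < 1 := fun k x hx => by
    have h1 := hv k x hx
    have hk : 1 ≤ c ^ k := Nat.one_le_pow _ _ (by omega)
    have h2 : Valued.v (io F (P (k + 1)) - x ^ c ^ (k + 1)) < Valued.v x ^ (c ^ k * (c - 1)) := by
      rw [pow_succ, pow_mul, hx, ← map_pow, ← map_sub, pow_mul, ← map_pow _ x, hx,
        v_io (ne_zero_of_natDegree_gt (h0 k)), ← exp_nsmul, nsmul_eq_mul, ← Nat.cast_mul, v_io_lt]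
      exact h k
    have e : c ^ (k + 1) - 1 = c ^ k - 1 + c ^ k * (c - 1) := by
      obtain ⟨d, rfl⟩ : ∃ d, c = d + 1 := ⟨c - 1, by omega⟩
      rw [pow_succ, mul_add_one, Nat.add_sub_cancel]
      omega
    obtain ⟨y, y1, y2⟩ := exists_root (hn (k + 1))
      (h2.trans_le (pow_le_pow_right' h1.le (by omega)))
    refine ⟨y, y1, ?_⟩
    rw [← y1, pd _ _ _ (hn _) y2, e, pow_add, ← mul_assoc] at h2
    exact lt_of_mul_lt_mul_right (h2.trans_eq (one_mul _).symm) zero_le
  choose f f1 f2 using step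
  let x : (k : ℕ) → {x // x ^ c ^ k = io F (P k)} := fun k =>
    Nat.rec ⟨io F (P 0), by simp⟩ (fun k y => ⟨f k y.1 y.2, f1 k y.1 y.2⟩) k
  have hx : ∀ k, Valued.v ((x (k + 1)).1 - (x k).1) * Valued.v (x k).1 ^ (c ^ k - 1) < 1 :=
    fun k => f2 k _ (x k).2
  have h1 : ∀ k, 1 < Valued.v (x k).1 := fun k => hv k _ (x k).2
  obtain ⟨e, he⟩ := exists_v_eq (z := (x 0).1) fun e => by simpa [e] using h1 0
  have h2 : ∀ k, Valued.v (x k).1 = exp e := fun k => by
    induction k with
    | zero => exact he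
    | succ k ih =>
      rw [← ih, ← add_sub_cancel (x k).1 (x (k + 1)).1]
      exact Valuation.map_add_eq_of_lt_left _ (((le_mul_of_one_le_right'
        (one_le_pow_of_one_le' (h1 k).le _)).trans_lt (hx k)).trans (h1 k))
  have e0 : 0 < e := by simpa [h2, ← exp_zero] using h1 0
  have h3 : ∀ k j, k ≤ j → Valued.v ((x (j + 1)).1 - (x j).1) ≤ exp (-(e * (c ^ k - 1 : ℕ)) - 1) := by
    intro k j hj
    refine le_pred ?_
    have := hx j
    rw [h2, ← exp_nsmul, ← lt_div_iff₀ (by simp), one_div, ← exp_neg, nsmul_eq_mul] at this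
    refine this.trans_le (exp_le_exp.2 (neg_le_neg ?_))
    rw [mul_comm]
    exact mul_le_mul_of_nonneg_right (by exact_mod_cast
      (Nat.sub_le_sub_right (Nat.pow_le_pow_right (by omega) hj) 1)) e0.le
  have hs : Summable fun j => (x (j + 1)).1 - (x j).1 := CarlAn.summable_of_v _ fun n =>
    ⟨n.natAbs, fun j hj => (h3 j j le_rfl).trans (exp_le_exp.2 (by
      have : j < c ^ j := Nat.lt_pow_self (by omega)
      have : (j : ℤ) ≤ (c ^ j - 1 : ℕ) := by omega
      have : -(j : ℤ) ≤ n := by omega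
      nlinarith [Int.natCast_nonneg j]))⟩
  refine ⟨(x 0).1 + ∑' j, ((x (j + 1)).1 - (x j).1), fun k => ?_⟩
  have h4 := CarlAn.v_tsum_le (fun j => (x (j + k + 1)).1 - (x (j + k)).1) _
    fun j => h3 k (j + k) (by omega)
  have h5 : io F (P k) = (x k).1 ^ c ^ k := (x k).2.symm
  rw [← hs.sum_add_tsum_nat_add k, sum_range_sub fun j => (x j).1, ← add_assoc, add_sub_cancel]
  refine lt_of_eq_of_lt (congrArg (fun t => Valued.v (_ - t)) h5) ?_
  rw [pd _ _ _ (hn k), add_sub_cancel_left, h2, ← exp_nsmul, nsmul_eq_mul]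
  · refine (mul_le_mul_left h4 _).trans_lt ?_
    rw [← exp_add, ← exp_zero, exp_lt_exp]
    linarith
  · rw [add_sub_cancel_left, h2]
    refine h4.trans_lt (exp_lt_exp.2 ?_)
    nlinarith [Int.natCast_nonneg (c ^ k - 1)]

end Pool.Agent.MF
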