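import Pool.Agent.Lib.MP_2c63aa_nt.MF.St

/-! Gluing the approximations to one linear functional. -/

namespace Pool.Agent.MF

open Polynomial Finset Filter WithZero Pool.Agent.Carl Module

theorem vdw (l : ℕ) (κ : Type) [Finite κ] : ∃ W : ℕ, ∀ C : ℕ → κ, ∃ D j : Fin W, 0 < (D : ℕ) ∧
    ∃ c, ∀ i : Fin l, C (j + i * D) = c := by
  classical
  obtain ⟨ι, _, hι⟩ := Combinatorics.Line.exists_mono_in_high_dimension (Fin l) κ
  refine ⟨Fintype.card ι * (l + 1) + 1, fun C => ?_⟩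
  obtain ⟨L, c, hl⟩ := hι fun v => C (∑ i, v i)
  set s : Finset ι := {i | L.idxFun i = none} with hs
  have h1 : #s ≤ Fintype.card ι := card_le_univ _
  have h2 : ∑ i ∈ sᶜ, ((L.idxFun i).map Fin.val).getD 0 ≤ Fintype.card ι * l := by
    refine (sum_le_card_nsmul _ _ l fun i _ => ?_).trans (Nat.mul_le_mul_right _ (card_le_univ _))
    cases L.idxFun i with
    | none => simp
    | some y => simp
  refine ⟨⟨#s, by nlinarith⟩, ⟨_, Nat.lt_succ_of_le (h2.trans (by nlinarith))⟩,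
    card_pos.2 ⟨L.proper.choose, mem_filter.2 ⟨mem_univ _, L.proper.choose_spec⟩⟩, c, fun x => ?_⟩
  rw [← hl x]
  congr 1
  rw [← sum_add_sum_compl s, add_comm]
  congr 1
  · rw [mul_comm, ← smul_eq_mul, ← sum_const]
    exact sum_congr rfl fun i hi => by rw [L.apply_none _ _ (mem_filter.1 hi).2]
  · refine sum_congr rfl fun i hi => ?_
    rw [hs, compl_filter, mem_filter] at hi
    obtain ⟨y, hy⟩ := Option.ne_none_iff_exists.1 hi.2
    simp [← hy]

set_option linter.unusedSectionVars false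

variable {F : Type} [Field F] [Fintype F]

theorem pow_li (x : LaurentSeries F) {l : ℕ} (h : (minpoly (kk F) x).natDegree = l) :
    LinearIndependent (kk F) fun i : Fin l => x ^ (i : ℕ) := h ▸ linearIndependent_pow x

theorem exists_coord {L : IntermediateField (kk F) (LaurentSeries F)} [FiniteDimensional (kk F) L]
    {l : ℕ} (hl : finrank (kk F) L = l) {b : Fin l → LaurentSeries F}
    (hb : LinearIndependent (kk F) b) (hm : ∀ i, b i ∈ L) {x : LaurentSeries F} (hx : x ∈ L) :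
    ∃ f : Fin l → kk F, x = ∑ i, (f i : LaurentSeries F) * b i := by
  have h1 : LinearIndependent (kk F) fun i => (⟨b i, hm i⟩ : L) :=
    LinearIndependent.of_comp L.val.toLinearMap hb
  have h2 := repr_eq (basisOfLinearIndependentOfCardEqFinrank' _ h1 (by simp [hl])) ⟨x, hx⟩
  rw [coe_basisOfLinearIndependentOfCardEqFinrank'] at h2
  exact ⟨_, h2⟩

theorem exists_fun {ι : Type} {b : ι → LaurentSeries F} (hb : LinearIndependent (kk F) b)
    (y : ι → kk F) : ∃ φ : LaurentSeries F →ₗ[kk F] kk F, ∀ i, φ (b i) = y i := by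
  obtain ⟨φ, h⟩ := LinearMap.exists_extend ((Basis.span hb).constr (kk F) y)
  refine ⟨φ, fun i => ?_⟩
  have := LinearMap.congr_fun h (Basis.span hb i)
  rwa [Basis.constr_basis, LinearMap.comp_apply, Submodule.subtype_apply, Basis.span_apply] at this

theorem phi_sum (φ : LaurentSeries F →ₗ[kk F] kk F) {ι : Type} [Fintype ι] (f : ι → kk F)
    (b : ι → LaurentSeries F) : (φ (∑ i, (f i : LaurentSeries F) * b i) : LaurentSeries F) =
      ∑ i, (f i : LaurentSeries F) * φ (b i) := by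
  rw [map_sum, AddSubmonoidClass.coe_finsetSum]
  exact sum_congr rfl fun i _ => congrArg Subtype.val (φ.map_smul (f i) (b i))

/-- passing from a family to its linear combinations -/
theorem comb {ι : Type} [Fintype ι] {f : ι → kk F} {b : ι → LaurentSeries F}
    {d d' z : LaurentSeries F} {C C' : ℤ} (φ : LaurentSeries F →ₗ[kk F] kk F)
    (h1 : ∀ i, d * f i ∈ A F) (h2 : ∀ i, Valued.v (f i : LaurentSeries F) ≤ exp C)
    (h3 : ∀ i, d' * φ (b i) ∈ A F) (h4 : ∀ i, Valued.v (φ (b i) - b i * z) ≤ exp C') :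
    d * d' * φ (∑ i, (f i : LaurentSeries F) * b i) ∈ A F ∧
      Valued.v (φ (∑ i, (f i : LaurentSeries F) * b i) - (∑ i, (f i : LaurentSeries F) * b i) * z)
        ≤ exp (C + C') := by
  rw [phi_sum, mul_sum, sum_mul, ← sum_sub_distrib]
  refine ⟨sum_mem fun i _ => ?_, Valuation.map_sum_le _ fun i _ => ?_⟩
  · rw [mul_mul_mul_comm]
    exact mul_mem (h1 i) (h3 i)
  · rw [mul_assoc, ← mul_sub]
    exact CarlAn.v_mul_le (h2 i) (h4 i)

theorem funS : FunStmt F := by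
  intro θ γ ρ V hγ γ0 hst hρ hρ' hV h
  have := fld_fin hγ
  set l := finrank (kk F) (fld F γ) with hl
  obtain ⟨W, hW⟩ := vdw l V
  have hp : LinearIndependent (kk F) fun i : Fin l => γ ^ (i : ℕ) := pow_li γ (fld_rank hγ).symm
  have hm : ∀ n : ℕ, γ ^ n ∈ fld F γ := fun n => pow_mem (self_mem γ) n
  let b : V × Fin W × Fin W → Fin l → LaurentSeries F := fun τ i =>
    τ.1 * γ ^ (τ.2.2 + i * τ.2.1 : ℕ)
  have hb : ∀ τ, 0 < (τ.2.1 : ℕ) → LinearIndependent (kk F) (b τ) := fun τ hτ => by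
    have h1 := (pow_li (γ ^ (τ.2.1 : ℕ)) (l := l) (by rw [← fld_rank (hγ.pow _), hst _ hτ])).map'
      (LinearMap.mulLeft (kk F) (τ.1 * γ ^ (τ.2.2 : ℕ))) (LinearMap.ker_eq_bot.2
        (mul_right_injective₀ (mul_ne_zero (hV _ τ.1.2).2 (pow_ne_zero _ γ0))))
    have e : b τ = LinearMap.mulLeft (kk F) (τ.1 * γ ^ (τ.2.2 : ℕ)) ∘
        fun i : Fin l => (γ ^ (τ.2.1 : ℕ)) ^ (i : ℕ) := funext fun i => by
      simp only [Function.comp_apply, LinearMap.mulLeft_apply, b]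
      ring
    exact e ▸ h1
  have hf : ∀ (τ : V × Fin W × Fin W) (t : Fin l), ∃ f : Fin l → kk F, 0 < (τ.2.1 : ℕ) →
      γ ^ (t : ℕ) = ∑ i, (f i : LaurentSeries F) * b τ i := fun τ t => by
    by_cases hτ : 0 < (τ.2.1 : ℕ)
    · exact (exists_coord rfl (hb τ hτ) (fun i => mul_mem (hV _ τ.1.2).1 (hm _)) (hm t)).imp
        fun f hf _ => hf
    · exact ⟨0, fun h => absurd h hτ⟩
  choose f hf using hf
  obtain ⟨d, d1, d2, d3⟩ := OreL.den univ
    (fun z : (V × Fin W × Fin W) × Fin l × Fin l => (f z.1 z.2.1 z.2.2 : LaurentSeries F))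
    fun _ => SetLike.coe_mem _
  obtain ⟨C, hC⟩ := OreL.bnd univ
    (fun z : (V × Fin W × Fin W) × Fin l × Fin l => (f z.1 z.2.1 z.2.2 : LaurentSeries F))
  have h1 : ∀ s, ∃ φ : LaurentSeries F →ₗ[kk F] kk F, ∀ t : Fin l, d * 1 * φ (γ ^ (t : ℕ)) ∈ A F ∧
      Valued.v (φ (γ ^ (t : ℕ)) - γ ^ (t : ℕ) * (θ * γ ^ (s + 1))) ≤ exp (C + -(ρ (s + 1) : ℤ)) := by
    intro s
    choose x hx y hy e using fun j => h (s + 1 + j) (by omega)
    obtain ⟨D, j, hD, c, hc⟩ := hW fun j => ⟨x j, hx j⟩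
    obtain ⟨φ, hφ⟩ := exists_fun (hb (c, D, j) hD) fun i => ⟨y (j + i * D), A_sub_kk (hy _)⟩
    refine ⟨φ, fun t => ?_⟩
    rw [hf (c, D, j) t hD]
    refine comb φ (fun i => d3 ((c, D, j), t, i) (mem_univ _))
      (fun i => hC ((c, D, j), t, i) (mem_univ _)) (fun i => by rw [hφ, one_mul]; exact hy _)
      fun i => ?_
    rw [hφ, Valuation.map_sub_swap]
    refine le_trans (le_of_eq ?_) ((e (j + i * D)).trans (exp_le_exp.2 (neg_le_neg ?_)))
    · congr 2
      rw [show x (j + i * D) = c from congrArg Subtype.val (hc i)]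
      simp only [b]
      ring
    · exact_mod_cast hρ (Nat.le_add_right _ _)
  choose φ hφ using h1
  have h2 : ∀ x ∈ fld F γ, ∃ (C : ℕ) (d : LaurentSeries F), d ∈ A F ∧ d ≠ 0 ∧ ∀ s,
      d * φ s x ∈ A F ∧ Valued.v (φ s x - x * (θ * γ ^ (s + 1))) ≤ exp ((C : ℤ) - ρ (s + 1)) := by
    intro x hx
    obtain ⟨g, rfl⟩ := exists_coord rfl hp (fun i => hm i) hx
    obtain ⟨e, e1, e2, e3⟩ := OreL.den univ (fun i => (g i : LaurentSeries F))
      fun _ => SetLike.coe_mem _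
    obtain ⟨C', hC'⟩ := OreL.bnd univ (fun i => (g i : LaurentSeries F))
    refine ⟨C' + C, e * (d * 1), mul_mem e1 (mul_mem d1 (one_mem _)), by simp [e2, d2], fun s => ?_⟩
    have := comb (φ s) (fun i => e3 i (mem_univ _)) (fun i => hC' i (mem_univ _))
      (fun i => (hφ s i).1) fun i => (hφ s i).2
    exact ⟨this.1, this.2.trans (le_of_eq (by push_cast; congr 1; ring))⟩
  have h3 : ∀ x ∈ fld F γ, ∀ᶠ s in atTop, φ (s + 1) x = φ s (x * γ) := by
    intro x hx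
    obtain ⟨C1, e1, a1, a2, a3⟩ := h2 x hx
    obtain ⟨C2, e2, b1, b2, b3⟩ := h2 _ (mul_mem hx (self_mem γ))
    obtain ⟨N, hN⟩ := exists_v_le (e1 * e2)
    filter_upwards [hρ'.eventually_gt_atTop (N + C1 + C2)] with s hs
    have r1 := hρ (show s ≤ s + 1 by omega)
    have r2 := hρ (show s ≤ s + 1 + 1 by omega)
    refine Subtype.ext (sub_eq_zero.1 ((mul_eq_zero.1 (eq_zero_of_v_lt (F := F)
      (z := e1 * e2 * ((φ (s + 1) x : LaurentSeries F) - φ s (x * γ))) ?_ ?_)).resolve_left (mul_ne_zero a2 b2)))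
    · rw [mul_sub, mul_right_comm, mul_assoc e1 e2]
      exact sub_mem (mul_mem (a3 _).1 b1) (mul_mem a1 (b3 _).1)
    · refine (CarlAn.v_mul_le hN (b := -(N + 1)) ?_).trans_lt (by rw [← exp_zero, exp_lt_exp]; omega)
      rw [show (φ (s + 1) x - φ s (x * γ) : LaurentSeries F) =
        (φ (s + 1) x - x * (θ * γ ^ (s + 1 + 1))) - (φ s (x * γ) - x * γ * (θ * γ ^ (s + 1))) by ring]
      exact Valuation.map_sub_le _ ((a3 _).2.trans (exp_le_exp.2 (by omega)))
        ((b3 _).2.trans (exp_le_exp.2 (by omega)))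
  obtain ⟨s₀, hs₀⟩ := eventually_atTop.1 (eventually_all.2 fun t : Fin l => h3 _ (hm t))
  have h4 : ∀ s, s₀ ≤ s → ∀ x ∈ fld F γ, φ (s + 1) x = φ s (x * γ) := by
    intro s hs x hx
    obtain ⟨g, rfl⟩ := exists_coord rfl hp (fun i => hm i) hx
    refine Subtype.ext ?_
    simp only [sum_mul, mul_assoc, phi_sum, hs₀ s hs]
  have h5 : ∀ n, ∀ x ∈ fld F γ, φ (s₀ + n) x = φ s₀ (x * γ ^ n) := by
    intro n
    induction n with
    | zero => simp
    | succ n ih =>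
      intro x hx
      rw [← add_assoc, h4 _ (by omega) x hx, ih _ (mul_mem hx (self_mem γ)), mul_assoc, ← pow_succ']
  refine ⟨φ s₀ ∘ₗ LinearMap.mulRight (kk F) (γ ^ (s₀ + 1))⁻¹, s₀ + 1, fun x hx => ?_⟩
  obtain ⟨C1, e1, a1, a2, a3⟩ := h2 x hx
  refine ⟨C1, e1, a1, a2, fun s hs => ?_⟩
  obtain ⟨n, rfl⟩ : ∃ n, s = s₀ + n + 1 := ⟨s - (s₀ + 1), by omega⟩
  rw [LinearMap.comp_apply, LinearMap.mulRight_apply,
    show x * γ ^ (s₀ + n + 1) * (γ ^ (s₀ + 1))⁻¹ = x * γ ^ n by field_simp; ring, ← h5 n x hx,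
    mul_assoc x]
  exact a3 _

end Pool.Agent.MF
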