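import Pool.Agent.Lib.MP_2c63aa_nt.MF.Rec

/-! The Newton polygon and the theorem on powers close to polynomials. -/

namespace Pool.Agent.MF

open Polynomial Finset Filter WithZero Pool.Agent.Carl Module

theorem last_max {Γ : Type} [LinearOrder Γ] (f : ℕ → Γ) (h : ∀ᶠ n in atTop, f n < f 0) :
    ∃ j, (∀ i, f i ≤ f j) ∧ ∀ i, j < i → f i < f j := by
  classical
  obtain ⟨N, hN⟩ := eventually_atTop.1 h
  obtain ⟨m, -, hm⟩ := exists_max_image (range (N + 1)) f ⟨0, by simp⟩
  have h1 : ∀ i, f i ≤ f m := fun i => by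
    rcases le_total i N with hi | hi
    · exact hm i (mem_range.2 (by omega))
    · exact (hN i hi).le.trans (hm 0 (by simp))
  have h2 : ∀ i, f m ≤ f i → i ≤ N := fun i hi => by
    by_contra hc
    exact (hN i (by omega)).not_ge ((h1 0).trans hi)
  have h3 := Nat.findGreatest_spec (P := fun i => f m ≤ f i) (h2 m le_rfl) le_rfl
  refine ⟨_, fun i => (h1 i).trans h3, fun i hi => lt_of_lt_of_le (not_le.1 fun hc => ?_) h3⟩
  exact Nat.findGreatest_is_greatest hi (h2 i hc) hc

theorem ps_lin {K : Type} [Field K] {ε : ℕ → K} (p q : K[X]) (m : ℕ) (hq : q.natDegree < m)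
    (h : ∀ s < m, ps ε (X ^ s * p) = 0) : ps ε (q * p) = 0 := by
  rw [q.as_sum_range' m hq, sum_mul, map_sum]
  exact sum_eq_zero fun s hs => by
    rw [← C_mul_X_pow_eq_monomial, mul_assoc, C_mul', map_smul, h s (mem_range.1 hs), smul_zero]

theorem hankel {K : Type} [Field K] {ε : ℕ → K} {ν : K[X]} {r : ℕ} (hm : ν.Monic)
    (hr : ν.natDegree = r + 1) (h0 : ∀ q, ps ε (q * ν) = 0)
    (hnd : ∀ p : K[X], p ≠ 0 → p.natDegree < ν.natDegree → (∀ q, ps ε (q * p) = 0) → False) :
    ∃ p : K[X], (∀ s < r, ps ε (X ^ s * p) = 0) ∧ ps ε (X ^ r * p) = 1 := by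
  let T : degreeLT K (r + 1) →ₗ[K] Fin (r + 1) → K :=
    LinearMap.pi fun s => ps ε ∘ₗ LinearMap.mulLeft _ (X ^ (s : ℕ)) ∘ₗ Submodule.subtype _
  have hT : Function.Injective T := (injective_iff_map_eq_zero T).2 fun p hp => by
    by_contra p0
    have p1 : (p : K[X]) ≠ 0 := fun e => p0 (Subtype.ext e)
    refine hnd p p1 (by rw [hr]; exact (natDegree_lt_iff_degree_lt p1).2 (mem_degreeLT.1 p.2))
      fun q => ?_
    rw [← modByMonic_add_div q ν, add_mul, map_add, mul_assoc, mul_comm ν, h0, add_zero]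
    exact ps_lin _ _ (r + 1) (hr ▸ natDegree_modByMonic_lt q hm fun e => by simp [e] at hr)
      fun s hs => congrFun hp ⟨s, hs⟩
  have := (degreeLTEquiv K (r + 1)).symm.finiteDimensional
  obtain ⟨p, hp⟩ := (LinearMap.injective_iff_surjective_of_finrank_eq_finrank
    (degreeLTEquiv _ _).finrank_eq).1 hT (Pi.single (Fin.last r) 1)
  exact ⟨p, fun s hs => (congrFun hp ⟨s, by omega⟩).trans
    (Pi.single_eq_of_ne (fun e => by simp [Fin.ext_iff] at e; omega) _),
    (congrFun hp (Fin.last r)).trans (Pi.single_eq_same _ _)⟩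

set_option linter.unusedSectionVars false

variable {F : Type} [Field F] [Fintype F]

theorem gauss (u G : ℕ → LaurentSeries F) (M : ℕ) (κ : ℤ) (u0 : u 0 = 1) (G0 : G 0 = 1)
    (hu : ∀ᶠ n in atTop, Valued.v (u n) ^ M * exp (κ * n) < 1)
    (hG : ∀ᶠ n in atTop, Valued.v (G n) ^ M * exp (κ * n) < 1) (hM : M ≠ 0)
    (h : ∀ n, 0 < n → ∑ j ∈ range (n + 1), u j * G (n - j) = 0) (j : ℕ) :
    Valued.v (u j) ^ M * exp (κ * j) ≤ 1 := by
  obtain ⟨j₀, a1, a2⟩ := last_max (fun n : ℕ => Valued.v (u n) ^ M * exp (κ * n)) (by simpa [u0] using hu)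
  obtain ⟨k₀, b1, b2⟩ := last_max (fun n : ℕ => Valued.v (G n) ^ M * exp (κ * n)) (by simpa [G0] using hG)
  have a3 : 0 < Valued.v (u j₀) ^ M * exp (κ * j₀) := lt_of_lt_of_le (by simp [u0]) (a1 0)
  have b3 : 0 < Valued.v (G k₀) ^ M * exp (κ * k₀) := lt_of_lt_of_le (by simp [G0]) (b1 0)
  rcases Nat.eq_zero_or_pos j₀ with rfl | hj
  · simpa [u0] using a1 j
  have e : ∀ i ≤ j₀ + k₀, Valued.v (u i * G (j₀ + k₀ - i)) ^ M * exp (κ * (j₀ + k₀ : ℕ)) =
      Valued.v (u i) ^ M * exp (κ * i) *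
        (Valued.v (G (j₀ + k₀ - i)) ^ M * exp (κ * (j₀ + k₀ - i : ℕ))) := fun i hi => by
    rw [map_mul, mul_pow, mul_mul_mul_comm, ← exp_add, ← mul_add, ← Nat.cast_add i,
      Nat.add_sub_cancel' hi]
  have h1 := Valuation.map_sum_eq_of_lt Valued.v (s := range (j₀ + k₀ + 1))
    (f := fun i => u i * G (j₀ + k₀ - i)) (j := j₀) (mem_range.2 (by omega)) fun i hi => by
      simp only [Finset.mem_sdiff, mem_range, Finset.mem_singleton] at hi
      refine lt_of_pow_lt_pow_left₀ M zero_le (lt_of_mul_lt_mul_right ?_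
        (zero_le (a := exp (κ * (j₀ + k₀ : ℕ)))))
      rw [e i (by omega), e j₀ (by omega), Nat.add_sub_cancel_left]
      rcases lt_or_gt_of_ne hi.2 with hl | hl
      · exact (mul_le_mul_left (a1 i) _).trans_lt (mul_lt_mul_of_pos_left (b2 _ (by omega)) a3)
      · exact (mul_le_mul_right (b1 _) _).trans_lt (mul_lt_mul_of_pos_right (a2 _ hl) b3)
  have h2 := e j₀ (by omega)
  rw [← h1, h _ (by omega), map_zero, zero_pow hM, zero_mul, Nat.add_sub_cancel_left] at h2
  exact absurd h2 (mul_pos a3 b3).ne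

theorem nondeg {β : LaurentSeries F} {φ : LaurentSeries F →ₗ[kk F] kk F}
    (hβ : IsAlgebraic (kk F) β) {n : ℕ} (hn : φ (β ^ n) ≠ 0) {p : (LaurentSeries F)[X]} (p0 : p ≠ 0)
    (hp : p.natDegree < (minpolyDiv (kk F) β).natDegree)
    (h : ∀ q, ps (fun n => φ (β ^ n) - 1 * β ^ n) (q * p) = 0) : False := by
  have hm : ((X - C β) * (p * C p.leadingCoeff⁻¹)).Monic :=
    (monic_X_sub_C β).mul (monic_mul_leadingCoeff_inv p0)
  have hd : ((X - C β) * (p * C p.leadingCoeff⁻¹)).natDegree = p.natDegree + 1 := by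
    rw [(monic_X_sub_C β).natDegree_mul (monic_mul_leadingCoeff_inv p0), natDegree_X_sub_C,
      natDegree_mul_leadingCoeff_self_inv, add_comm]
  have h1 : ∀ s, ps (fun n => (φ (β ^ n) : LaurentSeries F))
      (X ^ s * ((X - C β) * (p * C p.leadingCoeff⁻¹))) = 0 := fun s => by
    have := h (X ^ s * (X - C β) * C p.leadingCoeff⁻¹)
    rw [ps_sub_geom] at this
    rw [mul_comm p, ← mul_assoc, ← mul_assoc]
    simpa using this
  generalize (X - C β) * (p * C p.leadingCoeff⁻¹) = t at hm hd h1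
  obtain ⟨l, hl⟩ := exists_fun (F := F) (b := fun _ : Unit => 1)
    (linearIndependent_unique_iff.2 one_ne_zero) fun _ => 1
  let w : (kk F)[X] := ∑ i ∈ range (t.natDegree + 1), monomial i (l (t.coeff i))
  have w1 : w.coeff t.natDegree = 1 := by
    simp [w, coeff_monomial, hm.coeff_natDegree, hl ()]
  have w2 : w.natDegree ≤ t.natDegree :=
    natDegree_sum_le_of_forall_le _ _ fun i hi => (natDegree_monomial_le _).trans
      (Nat.lt_succ_iff.1 (mem_range.1 hi))
  have w0 : w ≠ 0 := fun e => by simp [e] at w1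
  have w3 : aeval β w = 0 := by
    by_contra hc
    refine hn (kill hβ (IntermediateField.algebra_adjoin_le_adjoin _ _
      (aeval_mem_adjoin_singleton _ β)) hc (fun s _ => ?_) n)
    have := congrArg l (h1 s)
    rw [ps_shift, ps_apply, sum_over_range _ (by simp), map_sum, map_zero] at this
    rw [← this, map_sum, sum_mul, map_sum]
    refine sum_congr rfl fun i _ => ?_
    rw [aeval_monomial, mul_assoc, ← pow_add, add_comm i, ← Algebra.smul_def, map_smul, mul_comm,
      smul_eq_mul, mul_comm (l _)]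
    exact (l.map_smul _ _).symm
  have := natDegree_le_natDegree (minpoly.degree_le_of_ne_zero _ β w0 w3)
  have := natDegree_minpolyDiv_succ hβ.isIntegral
  omega

theorem npS : NPStmt F := by
  intro β φ a b C hβ _ hb ⟨n, hn⟩ hrec hbd i j hij g hg
  have hm := minpolyDiv_monic hβ.isIntegral
  have hnd := fun p p0 hp h => nondeg (p := p) hβ hn p0 hp h
  generalize minpolyDiv (kk F) β = ν at *
  simp only [one_mul] at hnd
  set ε : ℕ → LaurentSeries F := fun n => φ (β ^ n) - β ^ n with hε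
  rcases Nat.eq_zero_or_pos j with rfl | hj
  · rw [add_zero] at hij
    rw [hij, hm.coeff_natDegree, map_one, ← exp_zero, exp_inj] at hg
    simp [← hg]
  obtain ⟨r, hr⟩ : ∃ r, ν.natDegree = r + 1 := ⟨ν.natDegree - 1, by omega⟩
  have h0 : ∀ q, ps ε (q * ν) = 0 := fun q =>
    ps_lin ν q _ (Nat.lt_succ_self _) fun s _ => (ps_shift ε s ν).trans (hrec s)
  obtain ⟨p, z0, z1⟩ := hankel hm hr h0 hnd
  set z : ℕ → LaurentSeries F := fun s => ps ε (X ^ s * p) with hz
  change ∀ s < r, z s = 0 at z0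
  change z r = 1 at z1
  have z2 : ∀ s, ∑ k ∈ range (r + 2), ν.coeff k * z (s + k) = 0 := fun s => by
    rw [← h0 (X ^ s * p)]
    conv_rhs => rw [ν.as_sum_range' (r + 2) (by omega), mul_sum, map_sum]
    exact sum_congr rfl fun k _ => by
      rw [← C_mul_X_pow_eq_monomial, mul_left_comm, C_mul', map_smul, smul_eq_mul, mul_right_comm,
        ← pow_add]
  obtain ⟨N, hN⟩ := OreL.bnd p.support p.coeff
  obtain ⟨n₀, hn₀⟩ := eventually_atTop.1 hbd
  have hb' : (0 : ℤ) < b := by exact_mod_cast hb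
  have key := gauss (fun j => if j ≤ r + 1 then ν.coeff (r + 1 - j) else 0) (fun n => z (n + r))
    ((r + 2) * b) ((r + 2) * a - 1) (by simp [← hr, hm.leadingCoeff]) (by simp [z1]) ?_ ?_ (by positivity) ?_ j
  · rw [if_pos (by omega), show r + 1 - j = i by omega, hg, ← exp_nsmul, ← exp_add, ← exp_zero,
      exp_le_exp, nsmul_eq_mul] at key
    push_cast at key
    have : (j : ℤ) ≤ r + 1 := by omega
    by_contra hc
    nlinarith [Int.natCast_nonneg r]
  · filter_upwards [eventually_gt_atTop (r + 1)] with n hn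
    rw [if_neg hn.not_ge, map_zero, zero_pow (by positivity), zero_mul]
    exact zero_lt_one
  · filter_upwards [eventually_ge_atTop n₀, eventually_gt_atTop ((r + 2) * (b * N + C))]
      with n h1 h2
    have h3 : Valued.v (z (n + r)) ≤ exp (N + (C - a * n : ℤ) / b) := by
      change Valued.v (ps ε (X ^ (n + r) * p)) ≤ _
      rw [ps_shift, ps_apply]
      refine Valuation.map_sum_le _ fun k hk => ?_
      obtain ⟨g, g1, g2⟩ := hn₀ (n + r + k) (by omega)
      refine CarlAn.v_mul_le (hN k hk) (g1.trans (exp_le_exp.2 (Int.le_ediv_of_mul_le hb' ?_)))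
      push_cast at g2
      nlinarith [Int.natCast_nonneg a, Int.natCast_nonneg r, Int.natCast_nonneg k]
    refine (mul_le_mul_left (pow_le_pow_left₀ zero_le h3 _) _).trans_lt ?_
    rw [← exp_nsmul, ← exp_add, ← exp_zero, exp_lt_exp, nsmul_eq_mul]
    have h4 := Int.ediv_mul_le (C - a * n : ℤ) hb'.ne'
    have h5 : ((r + 2) * (b * N + C) : ℤ) < n := by exact_mod_cast h2
    push_cast
    nlinarith [Int.natCast_nonneg r]
  · intro n hn
    obtain ⟨n, rfl⟩ : ∃ m, n = m + 1 := ⟨n - 1, by omega⟩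
    let t : ℕ → LaurentSeries F := fun j =>
      if j ≤ r + 1 then ν.coeff (r + 1 - j) * z (n + (r + 1 - j)) else 0
    have t1 : ∑ j ∈ range (n + 1 + 1), t j = ∑ j ∈ range (n + r + 3), t j :=
      sum_subset (range_mono (by omega)) fun j _ hj => by
        simp only [t, mem_range] at hj ⊢
        split_ifs with h
        · rw [z0 _ (by omega), mul_zero]
        · rfl
    have t2 : ∑ j ∈ range (r + 2), t j = ∑ j ∈ range (n + r + 3), t j :=
      sum_subset (range_mono (by omega)) fun j _ hj => if_neg (by rw [mem_range] at hj; omega)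
    have t3 : ∑ j ∈ range (r + 2), t j = 0 := by
      rw [← z2 n, ← sum_flip fun k => ν.coeff k * z (n + k)]
      exact sum_congr rfl fun j hj => if_pos (Nat.lt_succ_iff.1 (mem_range.1 hj))
    refine Eq.trans (sum_congr rfl fun j hj => ?_) (t1.trans (t2.symm.trans t3))
    simp only [t, mem_range] at hj ⊢
    split_ifs with h
    · congr 2
      omega
    · rw [zero_mul]

end Pool.Agent.MF
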