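import Pool.Agent.Lib.MP_2c63aa_nt.MF.Fun

/-! The recurrence of the error terms and integrality. -/

namespace Pool.Agent.MF

open Polynomial Finset Filter WithZero Pool.Agent.Carl Module

section
variable {K : Type} [Field K]

/-- the pairing of a polynomial with a sequence -/
noncomputable def ps (ε : ℕ → K) : K[X] →ₗ[K] K := lsum fun n => LinearMap.mulRight K (ε n)

theorem ps_apply (ε : ℕ → K) (p : K[X]) : ps ε p = p.sum fun n a => a * ε n := rfl

theorem ps_monomial (ε : ℕ → K) (n : ℕ) (a : K) : ps ε (monomial n a) = a * ε n := by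
  rw [ps_apply, sum_monomial_index _ _ (by simp)]

theorem ps_shift (ε : ℕ → K) (s : ℕ) (p : K[X]) :
    ps ε (X ^ s * p) = ps (fun j => ε (s + j)) p := by
  induction p using Polynomial.induction_on' with
  | add p q hp hq => rw [mul_add, map_add, map_add, hp, hq]
  | monomial n a => rw [X_pow_mul_monomial, ps_monomial, ps_monomial, add_comm]

theorem ps_sub_geom (B : ℕ → K) (θ γ : K) (p : K[X]) :
    ps (fun n => B n - θ * γ ^ n) p = ps B p - θ * p.eval γ := by
  induction p using Polynomial.induction_on' with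
  | add p q hp hq => rw [map_add, map_add, hp, hq, eval_add]; ring
  | monomial n a => rw [ps_monomial, ps_monomial, eval_monomial]; ring

end

set_option linter.unusedSectionVars false

variable {F : Type} [Field F] [Fintype F]

theorem ps_map (φ : LaurentSeries F →ₗ[kk F] kk F) (γ : LaurentSeries F) (q : (kk F)[X]) :
    ps (fun n => (φ (γ ^ n) : LaurentSeries F)) (q.map (algebraMap _ _)) = φ (aeval γ q) := by
  induction q using Polynomial.induction_on' with
  | add p q hp hq => rw [Polynomial.map_add, map_add, hp, hq, map_add, map_add]; rfl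
  | monomial n a =>
    rw [Polynomial.map_monomial, ps_monomial, aeval_monomial]
    exact (congrArg Subtype.val (φ.map_smul a (γ ^ n))).symm

theorem eq_zero_of_bdd {γ w : LaurentSeries F} (hγ : 1 < Valued.v γ) {C : ℤ}
    (h : ∀ᶠ n in atTop, Valued.v (γ ^ n * w) ≤ exp C) : w = 0 := by
  by_contra h0
  obtain ⟨d, hd⟩ := exists_v_eq h0
  obtain ⟨e, he⟩ := exists_v_eq (z := γ) (fun e => by simp [e] at hγ)
  rw [he, ← exp_zero, exp_lt_exp] at hγ
  obtain ⟨n, h1, h2⟩ := (h.and (eventually_gt_atTop (C - d).toNat)).exists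
  rw [map_mul, CarlAn.v_pow_eq he, hd, ← exp_add, exp_le_exp] at h1
  have : C - d < n := by omega
  nlinarith [Int.natCast_nonneg n]

theorem recS : RecStmt F := by
  intro θ γ φ C hγ h1 h s
  set ν := minpolyDiv (kk F) γ
  set ε : ℕ → LaurentSeries F := fun n => φ (γ ^ n) - θ * γ ^ n with hε
  have e1 : ∀ s, ps ε (X ^ (s + 1) * ν) = γ * ps ε (X ^ s * ν) := fun s => by
    have : X ^ (s + 1) * ν - γ • (X ^ s * ν) =
        (X ^ s * minpoly (kk F) γ).map (algebraMap _ _) := by
      rw [Polynomial.map_mul, ← minpolyDiv_spec, Polynomial.map_pow, map_X, smul_eq_C_mul]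
      ring
    rw [← sub_eq_zero, ← smul_eq_mul γ, ← map_smul, ← map_sub, this, hε, ps_sub_geom, ps_map,
      eval_map_algebraMap]
    simp
  have e2 : ∀ n, ps ε (X ^ (s + n) * ν) = γ ^ n * ps ε (X ^ s * ν) := fun n => by
    induction n with
    | zero => simp
    | succ n ih => rw [← add_assoc, e1, ih, pow_succ', mul_assoc]
  obtain ⟨N, hN⟩ := OreL.bnd ν.support ν.coeff
  obtain ⟨s₀, hs₀⟩ := eventually_atTop.1 h
  refine (ps_shift ε s ν).symm.trans (eq_zero_of_bdd h1 (C := N + C) ?_)
  filter_upwards [eventually_ge_atTop s₀] with n hn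
  rw [← e2, ps_shift, ps_apply]
  exact Valuation.map_sum_le _ fun i hi => CarlAn.v_mul_le (hN i hi) (hs₀ _ (by omega))

/-- a functional that kills `x β ^ n` for a full range of `n` kills the field -/
theorem kill {β x : LaurentSeries F} (hβ : IsAlgebraic (kk F) β) (hx : x ∈ fld F β) (x0 : x ≠ 0)
    {φ : LaurentSeries F →ₗ[kk F] kk F}
    (h : ∀ i < (minpoly (kk F) β).natDegree, φ (x * β ^ i) = 0) (n : ℕ) : φ (β ^ n) = 0 := by
  have := fld_fin hβ
  obtain ⟨g, hg⟩ := exists_coord (fld_rank hβ) (pow_li β rfl) (fun i => pow_mem (self_mem β) _)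
    (div_mem (pow_mem (self_mem β) n) hx)
  rw [div_eq_iff x0, sum_mul] at hg
  refine Subtype.ext ?_
  simp only [mul_assoc] at hg
  rw [hg, phi_sum]
  exact sum_eq_zero fun i _ => by rw [mul_comm _ x, h _ i.is_lt]; simp

/-- the polynomial ring as the ring `A` -/
noncomputable def ioA : F[X] ≃+* A F :=
  RingEquiv.ofBijective ((io F).toRingHom.codRestrict (A F) io_mem)
    ⟨fun _ _ h => io_inj (congrArg Subtype.val h), fun z =>
      (exists_io z.2).imp fun _ h => Subtype.ext h⟩

theorem intS : IntStmt F := by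
  intro β d φ hβ β0 d1 d0 ⟨n, hn⟩ h i
  obtain ⟨n₀, h⟩ := eventually_atTop.1 h
  have : IsPrincipalIdealRing (A F) := .of_surjective (ioA (F := F)).toRingHom ioA.surjective
  let _ : Algebra (A F) (kk F) := (Subring.inclusion (S := (A F).toSubring)
    (T := (kk F).toSubalgebra.toSubring) fun _ hz => A_sub_kk hz).toAlgebra
  have : IsScalarTower (A F) (kk F) (LaurentSeries F) := .of_algebraMap_eq fun _ => rfl
  have : FaithfulSMul (A F) (kk F) := (faithfulSMul_iff_algebraMap_injective _ _).2
    fun _ _ e => Subtype.ext (congrArg (fun z : kk F => (z : LaurentSeries F)) e)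
  have : IsFractionRing (A F) (kk F) := IsFractionRing.of_field _ _ fun z => by
    obtain ⟨b, b1, b2, b3⟩ := kk_frac z.2
    exact ⟨⟨_, b3⟩, ⟨b, b1⟩, Subtype.ext (mul_div_cancel_left₀ _ b2).symm⟩
  have hs : ∀ (a : A F) (x : LaurentSeries F), (φ (a * x) : LaurentSeries F) = a * φ x :=
    fun a x => congrArg Subtype.val (φ.map_smul ⟨a, A_sub_kk a.2⟩ x)
  let M : Submodule (A F) (LaurentSeries F) :=
    { carrier := {x | x ∈ fld F β ∧ ∀ n, n₀ ≤ n → d * φ (x * β ^ n) ∈ A F}
      add_mem' := fun {x y} hx hy => ⟨add_mem hx.1 hy.1, fun n hn => by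
        rw [add_mul, map_add, AddMemClass.coe_add, mul_add]
        exact add_mem (hx.2 n hn) (hy.2 n hn)⟩
      zero_mem' := ⟨zero_mem _, fun n _ => by simp⟩
      smul_mem' := fun a x hx => ⟨mul_mem ((fld F β).algebraMap_mem ⟨a, A_sub_kk a.2⟩) hx.1,
        fun n hn => by
          change d * φ (a * x * β ^ n) ∈ A F
          rw [mul_assoc, hs, mul_left_comm]
          exact mul_mem a.2 (hx.2 n hn)⟩ }
  let ψ : M →ₗ[A F] Fin (minpoly (kk F) β).natDegree → A F :=
    { toFun := fun x j => ⟨_, x.2.2 (n₀ + j) (Nat.le_add_right _ _)⟩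
      map_add' := fun x y => funext fun j => Subtype.ext (by simp [add_mul, mul_add])
      map_smul' := fun a x => funext fun j => Subtype.ext (by
        change d * φ (a * x * _) = a * (d * φ (x * _))
        rw [mul_assoc, hs, mul_left_comm]) }
  have hψ : Function.Injective ψ := fun y z e => by
    refine Subtype.ext (sub_eq_zero.1 ?_)
    by_contra x0
    refine hn (kill hβ (mul_mem (sub_mem y.2.1 z.2.1) (pow_mem (self_mem β) n₀))
      (mul_ne_zero x0 (pow_ne_zero _ β0)) (fun j hj => ?_) n)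
    rw [mul_assoc, ← pow_add, sub_mul, map_sub, sub_eq_zero]
    exact Subtype.ext (mul_left_cancel₀ d0 (congrArg Subtype.val (congrFun e ⟨j, hj⟩)))
  have hfg : M.FG := Module.Finite.iff_fg.1 (Module.Finite.of_injective ψ hψ)
  have h1 : (1 : LaurentSeries F) ∈ M := ⟨one_mem _, fun n hn => by rw [one_mul]; exact h n hn⟩
  have hi : IsIntegral (A F) β := isIntegral_of_smul_mem_submodule M
    (fun e => one_ne_zero ((Submodule.mem_bot _).1 (e ▸ h1))) hfg β fun x hx =>
      ⟨mul_mem (self_mem β) hx.1, fun n hn => by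
        rw [smul_eq_mul, mul_comm β, mul_assoc, ← pow_succ']
        exact hx.2 _ (by omega)⟩
  rw [minpoly.isIntegrallyClosed_eq_field_fractions' (kk F) hi, coeff_map]
  exact ((minpoly (A F) β).coeff i).2

end Pool.Agent.MF
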