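import Pool.Agent.Lib.MP_2c63aa_nt.MF.Core

/-! Signs of the fractional parts in the exceptional cases. -/

namespace Pool.Agent.MF

open Polynomial Finset Filter WithZero Pool.Agent.Carl Pool.Agent.MillsF

set_option linter.unusedSectionVars false

variable {F : Type} [Field F] [Fintype F]

/-- the data of a cubic unit `β` whose other conjugates have sum `s` and product `w` -/
def Cub (β s w : LaurentSeries F) : Prop :=
  1 < Valued.v β ∧ β + s ∈ A F ∧ β * s + w ∈ A F ∧ β * w ∈ A F ∧ Valued.v (β * w) = 1 ∧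
    Valued.v s ^ 2 ≤ Valued.v w

theorem v_three_le : Valued.v (3 : LaurentSeries F) ≤ 1 := by
  rw [show (3 : LaurentSeries F) = 1 + 1 + 1 by norm_num]
  exact Valuation.map_add_le _ (Valuation.map_add_le _ (by simp) (by simp)) (by simp)

theorem v_sq_sub_le {s w : LaurentSeries F} (h : Valued.v s ^ 2 ≤ Valued.v w) :
    Valued.v (s ^ 2 - 3 * w) ≤ Valued.v w := by
  refine Valuation.map_sub_le _ (by rwa [map_pow]) ?_
  rw [map_mul]
  exact mul_le_of_le_one_left' v_three_le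

theorem Cub.step {β s w : LaurentSeries F} (h : Cub β s w) :
    Cub (β ^ 3) (s * (s ^ 2 - 3 * w)) (w ^ 3) := by
  obtain ⟨h0, h1, h2, h3, h4, h5⟩ := h
  have t := three_mem (F := F)
  refine ⟨by rw [map_pow]; exact one_lt_pow₀ h0 (by omega), ?_, ?_, ?_, ?_, ?_⟩
  · rw [show β ^ 3 + s * (s ^ 2 - 3 * w) =
      (β + s) ^ 3 - 3 * ((β + s) * (β * s + w)) + 3 * (β * w) by ring]
    exact add_mem (sub_mem (pow_mem h1 _) (mul_mem t (mul_mem h1 h2))) (mul_mem t h3)
  · rw [show β ^ 3 * (s * (s ^ 2 - 3 * w)) + w ^ 3 = (β * s + w) ^ 3 -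
      3 * ((β + s) * (β * s + w) * (β * w)) + 3 * (β * w) ^ 2 by ring]
    exact add_mem (sub_mem (pow_mem h2 _) (mul_mem t (mul_mem (mul_mem h1 h2) h3)))
      (mul_mem t (pow_mem h3 _))
  · rw [← mul_pow]
    exact pow_mem h3 _
  · rw [← mul_pow, map_pow, h4, one_pow]
  · rw [map_mul, mul_pow, map_pow, pow_succ' (Valued.v w)]
    exact mul_le_mul' h5 (pow_le_pow_left' (v_sq_sub_le h5) _)

theorem Cub.w_lt {β s w : LaurentSeries F} (h : Cub β s w) : Valued.v w < 1 := by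
  by_contra hc
  have := h.2.2.2.2.1
  rw [map_mul] at this
  exact (one_lt_mul_of_lt_of_le' h.1 (not_lt.1 hc)).ne' this

theorem Cub.s_lt {β s w : LaurentSeries F} (h : Cub β s w) : Valued.v s < 1 :=
  (pow_lt_one_iff (n := 2) (by omega)).1 (h.2.2.2.2.2.trans_lt h.w_lt)

theorem Cub.w_ne {β s w : LaurentSeries F} (h : Cub β s w) : w ≠ 0 := fun e => by
  simpa [e] using h.2.2.2.2.1

theorem frac_eq {z y : LaurentSeries F} {P : F[X]} (h : IsFloor z P) (hy : z + y ∈ A F)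
    (hv : Valued.v y < 1) : (z - aeval (T F) P).leadingCoeff = -y.leadingCoeff := by
  rw [show aeval (T F) P = z + y from floor_eq h hy hv, sub_add_cancel_left,
    HahnSeries.leadingCoeff_neg]

theorem sign_false {σ : F} {s w : ℕ → LaurentSeries F} (σ0 : σ ≠ 0) (h2 : (2 : F) ≠ 0)
    (h3 : (3 : F) ≠ 0) (h4 : σ ^ 2 ≠ 4) (h5 : σ ^ 2 ≠ -2) (hl : ∀ j, -(s j).leadingCoeff = σ)
    (hs : ∀ j, s (j + 1) = s j * (s j ^ 2 - 3 * w j)) (hw : ∀ j, w (j + 1) = w j ^ 3)
    (hv : ∀ j, Valued.v (s j) ^ 2 ≤ Valued.v (w j)) (w0 : ∀ j, w j ≠ 0) : False := by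
  have e3 : (3 : LaurentSeries F).leadingCoeff = 3 := by exact_mod_cast lc_natCast (F := F) 3
  have v3 : Valued.v (3 : LaurentSeries F) = 1 := by
    exact_mod_cast v_natCast (F := F) (n := 3) (by exact_mod_cast h3)
  have vw : ∀ j, Valued.v (-(3 * w j)) = Valued.v (w j) := fun j => by
    rw [Valuation.map_neg, map_mul, v3, one_mul]
  have lw : ∀ j, (-(3 * w j)).leadingCoeff = -(3 * (w j).leadingCoeff) := fun j => by
    rw [HahnSeries.leadingCoeff_neg, HahnSeries.leadingCoeff_mul, e3]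
  have wp : ∀ j, 0 < Valued.v (w j) := fun j => (Valuation.pos_iff _).2 (w0 j)
  have l1 : ∀ j, (s j ^ 2 - 3 * w j).leadingCoeff = 1 := fun j => by
    have := hl (j + 1)
    rw [hs, HahnSeries.leadingCoeff_mul, ← neg_mul, hl] at this
    exact mul_left_cancel₀ σ0 (this.trans (mul_one _).symm)
  have g3 : ∀ j, (w (j + 1)).leadingCoeff = (w j).leadingCoeff ^ 3 := fun j => by rw [hw, lc_pow]
  have g0 : ∀ j, (w j).leadingCoeff ≠ 0 := fun j => HahnSeries.leadingCoeff_ne_zero.2 (w0 j)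
  by_cases hA : ∃ j, Valued.v (s j) ^ 2 < Valued.v (w j)
  · obtain ⟨j, hj⟩ := hA
    have a1 : ∀ j, Valued.v (s j) ^ 2 < Valued.v (w j) → -(3 * (w j).leadingCoeff) = 1 :=
      fun j hj => by rw [← lw, ← l1 j, sub_eq_neg_add, lc_add (by rwa [vw, map_pow])]
    have b1 := a1 j hj
    have b2 := a1 (j + 1) (by
      rw [hs, hw, map_mul, mul_pow, map_pow, pow_succ' (Valued.v (w j))]
      exact (mul_le_mul_right (pow_le_pow_left' (v_sq_sub_le (hv j)) _) _).trans_lt
        (mul_lt_mul_of_pos_right hj (pow_pos (wp j) _)))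
    rw [g3] at b2
    refine pow_ne_zero 3 h2 ?_
    generalize (w j).leadingCoeff = γ at b1 b2
    linear_combination (9 * γ ^ 2 - 3 * γ + 1) * b1 - 9 * b2
  · have hB : ∀ j, Valued.v (s j) ^ 2 = Valued.v (w j) := fun j =>
      (hv j).eq_of_not_lt fun h => hA ⟨j, h⟩
    have a1 : ∀ j, σ ^ 2 - 3 * (w j).leadingCoeff = 1 := fun j => by
      have := hB (j + 1)
      rw [hs, hw, map_mul, mul_pow, map_pow, pow_succ' (Valued.v (w j)), hB] at this
      have := (pow_left_inj₀ zero_le zero_le (by omega)).1 (mul_left_cancel₀ (wp j).ne' this)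
      rw [← l1 j, sub_eq_add_neg (s j ^ 2), lc_add_eq, lw, lc_pow, ← hl j, neg_sq, sub_eq_add_neg]
      · exact fun e => (wp j).ne' (by rw [← hB, ← map_pow, e, map_zero])
      · rw [vw, map_pow, hB]
      · rw [← sub_eq_add_neg, this, map_pow, hB]
    have b1 := a1 0
    have b2 := a1 1
    rw [g3] at b2
    have b0 := g0 0
    generalize (w 0).leadingCoeff = γ at b0 b1 b2
    have : 3 * γ * ((γ - 1) * (γ + 1)) = 0 := by linear_combination b1 - b2
    rcases mul_eq_zero.1 ((mul_eq_zero.1 this).resolve_left (mul_ne_zero h3 b0)) with h | h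
    · exact h4 (by linear_combination b1 + 3 * h)
    · exact h5 (by linear_combination b1 + 3 * h)

theorem signed {σ : F} {α : LaurentSeries F} (σ0 : σ ≠ 0) (h2 : (2 : F) ≠ 0) (h3 : (3 : F) ≠ 0)
    (h4 : σ ^ 2 ≠ 4) (h5 : σ ^ 2 ≠ -2) (h : IsLeastMills 3 {σ} α) : Transcendental (kk F) α := by
  intro ha
  obtain ⟨m, h1, ⟨-, s, w, -, hc⟩ | ⟨hc, -⟩⟩ :=
    core le_rfl (by exact_mod_cast h3) (Set.mem_singleton σ) σ0 h ha
  · let f : ℕ → LaurentSeries F × LaurentSeries F := fun j =>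
      (fun x => (x.1 * (x.1 ^ 2 - 3 * x.2), x.2 ^ 3))^[j] (s, w)
    have hf : ∀ j, f (j + 1) = ((f j).1 * ((f j).1 ^ 2 - 3 * (f j).2), (f j).2 ^ 3) := fun j =>
      Function.iterate_succ_apply' _ _ _
    have key : ∀ j, Cub (α ^ 3 ^ (m + j)) (f j).1 (f j).2 := fun j => by
      induction j with
      | zero => exact ⟨h1, hc⟩
      | succ j ih =>
        rw [hf, ← add_assoc, pow_succ, pow_mul]
        exact ih.step
    refine sign_false (s := fun j => (f j).1) (w := fun j => (f j).2) σ0 h2 h3 h4 h5 (fun j => ?_)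
      (fun j => by rw [hf]) (fun j => by rw [hf]) (fun j => (key j).2.2.2.2.2) fun j => (key j).w_ne
    obtain ⟨P, p1, -, p2⟩ := h.1 (m + j)
    rwa [frac_eq p1 (key j).2.1 (key j).s_lt] at p2
  · omega

theorem exists_unit {z : LaurentSeries F} (hz : z ∈ A F) (h : Valued.v z = 1) :
    ∃ u : F, u ≠ 0 ∧ z = algebraMap F _ u := by
  obtain ⟨U, rfl⟩ := exists_io hz
  have U0 : U ≠ 0 := fun e => by simp [e] at h
  rw [v_io U0, ← exp_zero, exp_inj, Nat.cast_eq_zero] at h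
  obtain ⟨u, rfl⟩ := natDegree_eq_zero.1 h
  exact ⟨u, C_ne_zero.1 U0, aeval_C _ _⟩

theorem nearest {c : ℕ} {S : Set F} {σ : F} {α : LaurentSeries F} (hc : 3 ≤ c) (hF : (c : F) ≠ 0)
    (hσ : σ ∈ S) (σ0 : σ ≠ 0) (h : IsLeastMills c S α) : Transcendental (kk F) α ∨
    ∃ (m : ℕ) (a b : F[X]) (u : F), u ≠ 0 ∧
      (c = 3 ∧ 2 * b.natDegree ≤ a.natDegree ∧
        (minpoly (kk F) (α ^ c ^ m)).map (algebraMap _ (LaurentSeries F)) =
          X ^ 3 - C (io F a) * X ^ 2 + C (io F b) * X - C (algebraMap F _ u) ∨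
      c = 4 ∧ (∃ τ ∈ S, τ ≠ 0 ∧ -τ ^ 4 ∈ S) ∧
        (minpoly (kk F) (α ^ c ^ m)).map (algebraMap _ (LaurentSeries F)) =
          X ^ 2 - C (io F a) * X + C (algebraMap F _ u)) := by
  refine or_iff_not_imp_left.2 fun ha => ?_
  obtain ⟨m, h1, ⟨rfl, s, w, e, hc⟩ | ⟨rfl, y, e, a1, a0, hv⟩⟩ :=
    core hc hF hσ σ0 h (not_not.1 ha)
  · have hC : Cub (α ^ 3 ^ m) s w := ⟨h1, hc⟩
    obtain ⟨a2, a1, a0, hv, hs⟩ := hc
    obtain ⟨a, ha⟩ := exists_io a2
    obtain ⟨b, hb⟩ := exists_io a1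
    obtain ⟨u, u0, hu⟩ := exists_unit a0 hv
    refine ⟨m, a, b, u, u0, Or.inl ⟨rfl, ?_, ?_⟩⟩
    · rcases eq_or_ne b 0 with rfl | b0
      · simp
      generalize α ^ 3 ^ m = β at *
      have va : Valued.v (io F a) = Valued.v β := by
        rw [ha]
        exact Valuation.map_add_eq_of_lt_left _ (hC.s_lt.trans h1)
      have vb : Valued.v (io F b) ^ 2 ≤ Valued.v β := by
        rw [hb]
        rcases le_max_iff.1 (Valuation.map_add Valued.v (β * s) w) with h | h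
        · refine (pow_le_pow_left' h 2).trans ?_
          rw [map_mul, mul_pow]
          refine (mul_le_mul_right hs _).trans_eq ?_
          rw [sq, mul_assoc, ← map_mul, hv, mul_one]
        · exact (pow_le_one' (h.trans hC.w_lt.le) 2).trans h1.le
      rw [← va, v_io b0, v_io (fun e => by simp [← va, e] at h1), ← exp_nsmul, exp_le_exp,
        nsmul_eq_mul] at vb
      exact_mod_cast vb
    · rw [e, ha, hb, ← hu, map_add, map_add, map_mul, map_mul]
      ring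
  · obtain ⟨a, ha⟩ := exists_io a1
    obtain ⟨u, u0, hu⟩ := exists_unit a0 hv
    have v1 : Valued.v y < 1 := by
      by_contra hc
      rw [map_mul] at hv
      exact (one_lt_mul_of_lt_of_le' h1 (not_lt.1 hc)).ne' hv
    refine ⟨m, a, 0, u, u0, Or.inr ⟨rfl, ⟨-y.leadingCoeff, ?_, ?_, ?_⟩, ?_⟩⟩
    · obtain ⟨P, p1, -, p2⟩ := h.1 m
      rwa [frac_eq p1 a1 v1] at p2
    · exact neg_ne_zero.2 (HahnSeries.leadingCoeff_ne_zero.2 fun e => by simp [e] at hv)
    · obtain ⟨P, p1, -, p2⟩ := h.1 (m + 1)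
      rw [pow_succ, pow_mul] at p1 p2
      rwa [frac_eq (y := y ^ 4) p1 _ (by rw [map_pow]; exact pow_lt_one' v1 (by omega)), lc_pow,
        ← Even.neg_pow (by decide)] at p2
      generalize α ^ 4 ^ m = β at *
      rw [show β ^ 4 + y ^ 4 = ((β + y) ^ 2 - (β * y + β * y)) ^ 2 - ((β * y) ^ 2 + (β * y) ^ 2) by
        ring]
      exact sub_mem (pow_mem (sub_mem (pow_mem a1 _) (add_mem a0 a0)) _)
        (add_mem (pow_mem a0 _) (pow_mem a0 _))
    · rw [e, ha, ← hu, map_add, map_mul]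
      ring

end Pool.Agent.MF
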