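import Pool.Agent.Lib.MP_2c63aa_nt.MF.Bas

/-! Frobenius keeps independence; stable exponents; the automaton of Christol. -/

namespace Pool.Agent.MF

open Polynomial Finset Filter WithZero Pool.Agent.Carl Module

set_option linter.unusedSectionVars false

variable {F : Type} [Field F] [Fintype F]

theorem U_kk {E r : ℕ} (hr : r < Fintype.card F ^ E) {z : LaurentSeries F} (hz : z ∈ kk F) :
    U F E r z ∈ kk F := by
  obtain ⟨b, b1, b2, b3⟩ := kk_frac hz
  obtain ⟨n, hn⟩ : ∃ n, Fintype.card F ^ E = n + 1 := ⟨_, (Nat.sub_add_cancel (q_pos E)).symm⟩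
  have e : z = (b⁻¹) ^ Fintype.card F ^ E * (b ^ n * (b * z)) := by
    rw [hn, inv_pow]; field_simp; ring
  rw [e, U_semi hr]
  exact mul_mem (inv_mem (A_sub_kk b1)) (A_sub_kk (U_mem hr (mul_mem (pow_mem b1 n) b3)))

theorem exists_U_ne (E : ℕ) {z : LaurentSeries F} (hz : z ≠ 0) :
    ∃ r < Fintype.card F ^ E, U F E r z ≠ 0 := by
  by_contra h
  push Not at h
  apply hz
  rw [U_decomp E z]
  exact sum_eq_zero fun r hr => by rw [h r (mem_range.1 hr), zero_pow (q_pos E).ne', mul_zero]

theorem ind : IndStmt F := by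
  intro ι w E hw
  rw [linearIndependent_iff'] at hw ⊢
  intro s g hg i hi
  by_contra h0
  obtain ⟨r, hr, hne⟩ := exists_U_ne E (z := (g i : LaurentSeries F)) (by simpa using h0)
  have h1 := congrArg (U F E r) hg
  rw [map_sum, map_zero] at h1
  have h2 := hw s (fun j => ⟨U F E r (g j), U_kk hr (g j).2⟩) (by
    rw [← h1]
    refine sum_congr rfl fun j _ => ?_
    rw [IntermediateField.smul_def, IntermediateField.smul_def, smul_eq_mul, smul_eq_mul,
      mul_comm (g j : LaurentSeries F), U_semi hr, mul_comm]) i hi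
  exact hne (congrArg Subtype.val h2)

theorem fld_fin {x : LaurentSeries F} (hx : IsAlgebraic (kk F) x) :
    FiniteDimensional (kk F) (fld F x) := IntermediateField.adjoin.finiteDimensional hx.isIntegral

theorem self_mem (x : LaurentSeries F) : x ∈ fld F x :=
  IntermediateField.mem_adjoin_simple_self _ x

theorem fld_le {x y : LaurentSeries F} (h : x ∈ fld F y) : fld F x ≤ fld F y :=
  IntermediateField.adjoin_simple_le_iff.2 h

theorem fld_rank {x : LaurentSeries F} (hx : IsAlgebraic (kk F) x) :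
    finrank (kk F) (fld F x) = (minpoly (kk F) x).natDegree :=
  IntermediateField.adjoin.finrank hx.isIntegral

theorem fld_frob {x : LaurentSeries F} (hx : IsAlgebraic (kk F) x) (E : ℕ) :
    fld F (x ^ Fintype.card F ^ E) = fld F x := by
  have := fld_fin hx
  have := fld_fin (hx.pow (Fintype.card F ^ E))
  refine IntermediateField.eq_of_le_of_finrank_le (fld_le (pow_mem (self_mem x) _)) ?_
  have h1 := ind _ _ E (linearIndependent_pow (K := kk F) x)
  have h2 : LinearIndependent (kk F) fun i : Fin (minpoly (kk F) x).natDegree =>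
      (⟨(x ^ Fintype.card F ^ E) ^ (i : ℕ), pow_mem (self_mem _) _⟩ :
        fld F (x ^ Fintype.card F ^ E)) := by
    refine LinearIndependent.of_comp (fld F (x ^ Fintype.card F ^ E)).val.toLinearMap ?_
    simp only [pow_right_comm x _ (Fintype.card F ^ E)] at h1
    exact h1
  rw [fld_rank hx]
  simpa using h2.fintype_card_le_finrank

theorem exists_split (M n : ℕ) (hn : 0 < n) : ∃ j N, 0 < N ∧ N.Coprime M ∧ n ∣ M ^ j * N := by
  induction n using Nat.strong_induction_on with
  | _ n ih =>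
    by_cases h : n.Coprime M
    · exact ⟨0, n, hn, h, by simp⟩
    · obtain ⟨n', hn'⟩ := Nat.gcd_dvd_left n M
      have h1 : 1 < n.gcd M := by
        have := Nat.gcd_pos_of_pos_left M hn
        rw [Nat.Coprime] at h
        omega
      have h2 : 0 < n' := Nat.pos_of_ne_zero fun e => by simp [e] at hn'; omega
      obtain ⟨j, N, a, b, c⟩ := ih n' (by nlinarith) h2
      refine ⟨j + 1, N, a, b, ?_⟩
      rw [hn', pow_succ', mul_assoc]
      exact mul_dvd_mul (Nat.gcd_dvd_right _ _) c

theorem st : StStmt F := by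
  intro α c hα hc
  obtain ⟨n, hmin⟩ := exists_minimalFor_of_wellFoundedLT (fun n : ℕ => 0 < n)
    (fun n => finrank (kk F) (fld F (α ^ n))) ⟨1, one_pos⟩
  have hL : ∀ n', 0 < n' → n ∣ n' → fld F (α ^ n') = fld F (α ^ n) := by
    rintro _ h ⟨d, rfl⟩
    have := fld_fin (hα.pow n)
    refine IntermediateField.eq_of_le_of_finrank_le
      (fld_le (by rw [pow_mul]; exact pow_mem (self_mem _) _)) (hmin.le h)
  obtain ⟨j, N, h1, h2, h3⟩ := exists_split (c * Fintype.card F) n hmin.1
  have key : ∀ D, 0 < D → fld F ((α ^ c ^ j) ^ (N * D)) = fld F (α ^ n) := fun D hD => by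
    rw [← fld_frob ((hα.pow _).pow _) j, ← pow_mul, ← pow_mul]
    refine hL _ (by have := q_pos (F := F) j; positivity) (h3.trans ⟨D, by ring⟩)
  refine ⟨j, N, h1, h2.coprime_mul_right_right, h2.coprime_mul_left_right, fun D hD => ?_⟩
  rw [key D hD, ← key 1 one_pos, mul_one]

theorem finite_A (H : ℕ) : {z : LaurentSeries F | z ∈ A F ∧ Valued.v z ≤ exp (H : ℤ)}.Finite := by
  refine ((Pool.Agent.Shared.HasseDavenport.finite_le (F := F) H).image (io F)).subset ?_
  rintro z ⟨h1, h2⟩
  obtain ⟨P, rfl⟩ := exists_io h1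
  refine ⟨P, ?_, rfl⟩
  by_cases h : P = 0
  · simp [h]
  · rw [v_io h, exp_le_exp] at h2
    exact_mod_cast h2

theorem repr_eq {L : IntermediateField (kk F) (LaurentSeries F)} {ι : Type} [Fintype ι]
    (w : Basis ι (kk F) L) (y : L) :
    (y : LaurentSeries F) = ∑ i, (w.repr y i : LaurentSeries F) * w i := by
  have := congrArg L.val (w.sum_repr y)
  rw [map_sum] at this
  exact this.symm.trans (sum_congr rfl fun i _ => rfl)

theorem aut : AutStmt F := by
  intro L E T hL hE hT
  classical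
  let w := Module.finBasis (kk F) L
  have hw : LinearIndependent (kk F) fun i => w i ^ Fintype.card F ^ E := by
    refine LinearIndependent.of_comp L.val.toLinearMap ?_
    exact ind _ _ E (w.linearIndependent.map' L.val.toLinearMap
      (LinearMap.ker_eq_bot.2 Subtype.val_injective))
  let w' := basisOfLinearIndependentOfCardEqFinrank' _ hw (by simp)
  have hw' : ∀ i, w' i = w i ^ Fintype.card F ^ E := fun i => by simp [w']
  let g : T × Fin (finrank (kk F) L) × Fin (finrank (kk F) L) → LaurentSeries F := fun z =>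
    w'.repr (⟨z.1, hT _ z.1.2⟩ * w z.2.1) z.2.2
  obtain ⟨G, G1, G2, G3⟩ := OreL.den univ
    (Sum.elim g fun i => (w.repr 1 i : LaurentSeries F)) (by
      rintro (z | i)
      · exact SetLike.coe_mem _
      · exact SetLike.coe_mem _)
  obtain ⟨n, hn⟩ : ∃ n, Fintype.card F ^ E = n + 2 :=
    ⟨_, (Nat.sub_add_cancel (Nat.one_lt_pow hE.ne' Fintype.one_lt_card)).symm⟩
  obtain ⟨H, hH⟩ := OreL.bnd univ
    (Sum.elim (fun z => G ^ n * (G * g z)) fun i => G * (w.repr 1 i : LaurentSeries F))
  let B := (finite_A (F := F) H).toFinset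
  have hB : ∀ z, z ∈ B ↔ z ∈ A F ∧ Valued.v z ≤ exp (H : ℤ) := fun z => by simp [B]
  refine ⟨(Fintype.piFinset fun _ => B).image fun f => ∑ i, f i * (w i / G), ?_, ?_, ?_⟩
  · refine mem_image.2 ⟨fun i => G * (w.repr 1 i : LaurentSeries F), Fintype.mem_piFinset.2
      fun i => (hB _).2 ⟨G3 (.inr i) (mem_univ _), hH (.inr i) (mem_univ _)⟩, ?_⟩
    refine Eq.trans (sum_congr rfl fun i _ => ?_) (repr_eq w 1).symm
    field_simp
  · intro a ha
    obtain ⟨f, hf, rfl⟩ := mem_image.1 ha
    have hk : ∀ z ∈ A F, z ∈ L := fun z hz => L.algebraMap_mem ⟨z, A_sub_kk hz⟩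
    exact sum_mem fun i _ => mul_mem (hk _ ((hB _).1 (Fintype.mem_piFinset.1 hf i)).1)
      (div_mem (w i).2 (hk _ G1))
  · intro x hx a ha r hr
    obtain ⟨f, hf, rfl⟩ := mem_image.1 ha
    have hf' := fun i => (hB _).1 (Fintype.mem_piFinset.1 hf i)
    have e1 : ∀ t, x * w t = ∑ i, g (⟨x, hx⟩, t, i) * (w i : LaurentSeries F) ^ (n + 2) := fun t => by
      refine (repr_eq w' (⟨x, hT _ hx⟩ * w t)).trans (sum_congr rfl fun i _ => ?_)
      rw [hw', hn]
      rfl
    have e2 : x * ∑ t, f t * (w t / G) = ∑ i, (w i / G) ^ Fintype.card F ^ E *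
        ∑ t, f t * (G ^ n * (G * g (⟨x, hx⟩, t, i))) := by
      simp only [mul_sum]
      rw [sum_comm]
      refine sum_congr rfl fun t _ => ?_
      rw [show x * (f t * (w t / G)) = f t / G * (x * w t) by ring, e1, mul_sum]
      refine sum_congr rfl fun i _ => ?_
      rw [hn, div_pow]
      field_simp
      ring
    refine mem_image.2 ⟨fun i => U F E r (∑ t, f t * (G ^ n * (G * g (⟨x, hx⟩, t, i)))),
      Fintype.mem_piFinset.2 fun i => (hB _).2 ⟨U_mem hr (sum_mem fun t _ => mul_mem (hf' t).1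
        (mul_mem (pow_mem G1 n) (G3 (.inl _) (mem_univ _)))), U_val _ ?_⟩, ?_⟩
    · refine Valuation.map_sum_le _ fun t _ => (CarlAn.v_mul_le (hf' t).2
        (hH (.inl (⟨x, hx⟩, t, i)) (mem_univ _))).trans (exp_le_exp.2 ?_)
      rw [hn]
      push_cast
      nlinarith [Int.natCast_nonneg n, Int.natCast_nonneg H]
    · rw [e2, map_sum]
      exact sum_congr rfl fun i _ => by rw [U_semi hr, mul_comm]

end Pool.Agent.MF
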